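import Pool.Agent.MP_a2955b_co.Orth.Defs

/-! Binary partitions of boxes by axis-parallel cuts. -/

set_option autoImplicit false

namespace Pool.Agent.MP_a2955b_co.Orth

open Finset Function

variable {d : ℕ}

/-- The open box with corners `a`, `b` can be cut into at most `M` open boxes satisfying `ok`. -/
inductive Cuts (ok : (Fin d → ℝ) → (Fin d → ℝ) → Prop) :
    (Fin d → ℝ) → (Fin d → ℝ) → ℝ → Prop
  | leaf {a b : Fin d → ℝ} {M : ℝ} : ok a b → 1 ≤ M → Cuts ok a b M
  | split {a b : Fin d → ℝ} {M m m' : ℝ} (i : Fin d) (t : ℝ) : a i < t → t < b i →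
      Cuts ok a (update b i t) m → Cuts ok (update a i t) b m' → m + m' ≤ M → Cuts ok a b M

variable {ok : (Fin d → ℝ) → (Fin d → ℝ) → Prop}

lemma Cuts.mono {a b : Fin d → ℝ} {M M' : ℝ} (h : Cuts ok a b M) (hM : M ≤ M') :
    Cuts ok a b M' := by
  cases h with
  | leaf h1 h2 => exact .leaf h1 (h2.trans hM)
  | split i t h1 h2 h3 h4 h5 => exact .split i t h1 h2 h3 h4 (h5.trans hM)

lemma lt_update_right {a b : Fin d → ℝ} (h : ∀ c, a c < b c) {i : Fin d} {t : ℝ} (ht : a i < t)
    (c : Fin d) : a c < update b i t c := by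
  by_cases e : c = i
  · subst e; simpa using ht
  · simpa [update_of_ne e] using h c

lemma update_lt_left {a b : Fin d → ℝ} (h : ∀ c, a c < b c) {i : Fin d} {t : ℝ} (ht : t < b i)
    (c : Fin d) : update a i t c < b c := by
  by_cases e : c = i
  · subst e; simpa using ht
  · simpa [update_of_ne e] using h c

/-- The leaves of a partition. -/
lemma Cuts.tiles {a b : Fin d → ℝ} {M : ℝ} (h : Cuts ok a b M) (hab : ∀ c, a c < b c) :
    ∃ L : Finset ((Fin d → ℝ) × (Fin d → ℝ)), (L.card : ℝ) ≤ M ∧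
      (∀ q ∈ L, ok q.1 q.2 ∧ ∀ c, a c ≤ q.1 c ∧ q.1 c < q.2 c ∧ q.2 c ≤ b c) ∧
      (∀ q ∈ L, ∀ q' ∈ L, q ≠ q' → ∃ c, q.2 c ≤ q'.1 c ∨ q'.2 c ≤ q.1 c) ∧
      ∀ x : Fin d → ℝ, (∀ c, a c ≤ x c ∧ x c ≤ b c) →
        ∃ q ∈ L, ∀ c, q.1 c ≤ x c ∧ x c ≤ q.2 c := by
  classical
  induction h with
  | @leaf a b M h1 h2 =>
    refine ⟨{(a, b)}, by simpa using h2, ?_, by simp, fun x hx => ⟨(a, b), by simp, hx⟩⟩
    intro q hq
    rw [mem_singleton.1 hq]
    exact ⟨h1, fun c => ⟨le_rfl, hab c, le_rfl⟩⟩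
  | @split a b M m m' i t h1 h2 _ _ h5 ih1 ih2 =>
    obtain ⟨L, a1, a2, a3, a4⟩ := ih1 (lt_update_right hab h1)
    obtain ⟨L', b1, b2, b3, b4⟩ := ih2 (update_lt_left hab h2)
    have hc : ((L ∪ L').card : ℝ) ≤ L.card + L'.card := by exact_mod_cast card_union_le L L'
    have hx : ∀ q ∈ L, ∀ q' ∈ L', q.2 i ≤ q'.1 i := fun q hq q' hq' => by
      have e1 := ((a2 q hq).2 i).2.2
      have e2 := ((b2 q' hq').2 i).1
      rw [update_self] at e1 e2
      exact e1.trans e2
    refine ⟨L ∪ L', by linarith, fun q hq => ?_, fun q hq q' hq' hne => ?_, fun x hx => ?_⟩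
    · rcases mem_union.1 hq with hq | hq
      · refine ⟨(a2 q hq).1, fun c => ⟨((a2 q hq).2 c).1, ((a2 q hq).2 c).2.1,
          ((a2 q hq).2 c).2.2.trans ?_⟩⟩
        exact update_le_self_iff.2 h2.le c
      · refine ⟨(b2 q hq).1, fun c => ⟨le_trans ?_ ((b2 q hq).2 c).1, ((b2 q hq).2 c).2⟩⟩
        exact le_update_self_iff.2 h1.le c
    · rcases mem_union.1 hq with hq | hq <;> rcases mem_union.1 hq' with hq' | hq'
      · exact a3 q hq q' hq' hne
      · exact ⟨i, Or.inl (hx q hq q' hq')⟩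
      · exact ⟨i, Or.inr (hx q' hq' q hq)⟩
      · exact b3 q hq q' hq' hne
    · rcases le_total (x i) t with h | h
      · obtain ⟨q, hq, hq'⟩ := a4 x fun c => ⟨(hx c).1, by
          by_cases e : c = i
          · subst e; simpa using h
          · simpa [update_of_ne e] using (hx c).2⟩
        exact ⟨q, mem_union_left _ hq, hq'⟩
      · obtain ⟨q, hq, hq'⟩ := b4 x fun c => ⟨by
          by_cases e : c = i
          · subst e; simpa using h
          · simpa [update_of_ne e] using (hx c).1, (hx c).2⟩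
        exact ⟨q, mem_union_right _ hq, hq'⟩

/-- Parallel cuts at the points of `X`. -/
lemma cuts_multi (i : Fin d) (X : Finset ℝ) (a : Fin d → ℝ) {m : ℝ} (hm : 0 ≤ m) :
    ∀ b : Fin d → ℝ, a i < b i →
      (∀ s t, a i ≤ s → s < t → t ≤ b i → (∀ x ∈ X, ¬ (s < x ∧ x < t)) →
        Cuts ok (update a i s) (update b i t) m) → Cuts ok a b ((X.card + 1) * m) := by
  induction X using Finset.induction_on_max with
  | empty =>
    intro b hb h
    simpa using h (a i) (b i) le_rfl hb le_rfl (by simp)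
  | insert x X hx ih =>
    intro b hb h
    have hc : ((insert x X).card : ℝ) = X.card + 1 := by
      rw [card_insert_of_notMem fun e => lt_irrefl _ (hx x e)]; push_cast; rfl
    rw [hc]
    by_cases hi : a i < x ∧ x < b i
    · refine .split i x hi.1 hi.2 (ih (update b i x) (by simpa using hi.1) ?_) ?_
        (m' := m) (le_of_eq (by ring))
      · intro s t h1 h2 h3 h4
        rw [update_self] at h3
        rw [update_idem]
        refine h s t h1 h2 (h3.trans hi.2.le) fun y hy => ?_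
        rcases mem_insert.1 hy with rfl | hy
        · exact fun e => absurd e.2 (not_lt.2 h3)
        · exact h4 y hy
      · have := h x (b i) hi.1.le hi.2 le_rfl fun y hy => by
          rcases mem_insert.1 hy with rfl | hy
          · exact fun e => lt_irrefl _ e.1
          · exact fun e => absurd e.1 (not_lt.2 (hx y hy).le)
        rwa [update_eq_self] at this
    · refine (ih b hb fun s t h1 h2 h3 h4 => h s t h1 h2 h3 fun y hy => ?_).mono (by linarith)
      rcases mem_insert.1 hy with rfl | hy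
      · exact fun e => hi ⟨h1.trans_lt e.1, e.2.trans_le h3⟩
      · exact h4 y hy

open Classical in
/-- Quantiles of a finite family of reals. -/
lemma quantile_nat {J : Type} (f : J → ℝ) (w : ℕ) (G : Finset J) :
    ∃ X : Finset ℝ, X.card * (w + 1) ≤ G.card ∧ ∀ s t, (∀ x ∈ X, ¬ (s < x ∧ x < t)) →
      (G.filter fun j => s < f j ∧ f j < t).card ≤ w := by
  induction G using Finset.strongInduction with
  | H G ih =>
    by_cases hG : G.card ≤ w
    · exact ⟨∅, by simp, fun s t _ => (card_filter_le _ _).trans hG⟩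
    have hne : G.Nonempty := card_pos.1 (by omega)
    obtain ⟨jm, hjm, hmax⟩ := exists_max_image G f hne
    have hne' : (G.filter fun j => w < (G.filter fun k => f k ≤ f j).card).Nonempty := by
      refine ⟨jm, mem_filter.2 ⟨hjm, ?_⟩⟩
      rw [filter_true_of_mem hmax]
      omega
    obtain ⟨j₀, hj₀, hmin⟩ := exists_min_image _ f hne'
    obtain ⟨hj₀G, hj₀w⟩ := mem_filter.1 hj₀
    have hlow : (G.filter fun k => f k < f j₀).card ≤ w := by
      rcases (G.filter fun k => f k < f j₀).eq_empty_or_nonempty with e | e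
      · simp [e]
      obtain ⟨j₁, hj₁, hm₁⟩ := exists_max_image _ f e
      obtain ⟨hj₁G, hj₁l⟩ := mem_filter.1 hj₁
      by_contra hc
      have h1 : (G.filter fun k => f k < f j₀) ⊆ G.filter fun k => f k ≤ f j₁ := fun k hk =>
        mem_filter.2 ⟨(mem_filter.1 hk).1, hm₁ k hk⟩
      have h2 := card_le_card h1
      exact absurd (hmin j₁ (mem_filter.2 ⟨hj₁G, by omega⟩)) (not_le.2 hj₁l)
    obtain ⟨X, hX1, hX2⟩ := ih (G.filter fun k => ¬ f k ≤ f j₀)
      (filter_ssubset.2 ⟨j₀, hj₀G, by simp⟩)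
    have hsum := card_filter_add_card_filter_not (s := G) fun k => f k ≤ f j₀
    refine ⟨insert (f j₀) X, ?_, fun s t h => ?_⟩
    · have := Nat.mul_le_mul_right (w + 1) (card_insert_le (f j₀) X)
      rw [add_mul] at this
      omega
    · by_cases hs : s < f j₀
      · have ht : t ≤ f j₀ := not_lt.1 fun e => h _ (mem_insert_self _ _) ⟨hs, e⟩
        exact (card_le_card fun k hk => mem_filter.2
          ⟨(mem_filter.1 hk).1, (mem_filter.1 hk).2.2.trans_le ht⟩).trans hlow
      · refine (card_le_card fun k hk => ?_).trans (hX2 s t fun x hx => h x (mem_insert_of_mem hx))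
        obtain ⟨h1, h2⟩ := mem_filter.1 hk
        exact mem_filter.2 ⟨mem_filter.2 ⟨h1, not_le.2 ((not_lt.1 hs).trans_lt h2.1)⟩, h2⟩

open Classical in
lemma quantile {J : Type} (f : J → ℝ) {ρ : ℝ} (hρ : 0 < ρ) (G : Finset J) :
    ∃ X : Finset ℝ, (X.card : ℝ) ≤ ρ ∧ ∀ s t, (∀ x ∈ X, ¬ (s < x ∧ x < t)) →
      ((G.filter fun j => s < f j ∧ f j < t).card : ℝ) ≤ G.card / ρ := by
  obtain ⟨X, h1, h2⟩ := quantile_nat f ⌊G.card / ρ⌋₊ G
  have h0 : 0 ≤ (G.card : ℝ) / ρ := by positivity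
  refine ⟨X, ?_, fun s t h => le_trans (by exact_mod_cast h2 s t h) (Nat.floor_le h0)⟩
  have h3 : (X.card : ℝ) * (⌊G.card / ρ⌋₊ + 1) ≤ G.card := by exact_mod_cast h1
  have h4 := Nat.lt_floor_add_one ((G.card : ℝ) / ρ)
  rw [div_lt_iff₀ hρ] at h4
  have h5 : (0 : ℝ) < ⌊G.card / ρ⌋₊ + 1 := by positivity
  exact le_of_mul_le_mul_right (by linarith) h5

end Pool.Agent.MP_a2955b_co.Orth
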