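import Pool.Agent.MP_a2955b_co.Defs

set_option autoImplicit false

namespace Pool.Agent.MP_a2955b_co.Orth

/-- `C` is an axis-parallel box in `ℝ^d`. -/
def IsBox {d : ℕ} (C : Set (EuclideanSpace ℝ (Fin d))) : Prop :=
  ∃ lo hi : Fin d → ℝ, C = {x | ∀ i, lo i ≤ x i ∧ x i ≤ hi i}

/-- `P` is a polyhedron in `ℝ^d` with `n` faces, all of which are axis-parallel boxes. -/
def IsOrthPolyhedron {d : ℕ} (P : Set (EuclideanSpace ℝ (Fin d))) (n : ℕ) : Prop :=
  IsCompact P ∧ closure (interior P) = P ∧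
    ∃ F : Fin n → Set (EuclideanSpace ℝ (Fin d)), (∀ i, IsPolytope (d - 1) (F i) ∧ IsBox (F i)) ∧
      frontier P = ⋃ i, F i ∧
      ∀ i j, i ≠ j → F i ∩ F j ⊆ intrinsicFrontier ℝ (F i) ∩ intrinsicFrontier ℝ (F j)

/-- Any two members of the family (equal or not) have a common element. -/
def Intersecting {d : ℕ} (H : Finset (Finset (Fin d))) : Prop :=
  ∀ S ∈ H, ∀ T ∈ H, (S ∩ T).Nonempty

/-- The fractional cover number: the least total weight of nonnegative weights on the points
that give every member of the family weight at least one. -/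
noncomputable def fracCover {d : ℕ} (H : Finset (Finset (Fin d))) : ℝ :=
  sInf {t | ∃ τ : Fin d → ℝ, (∀ i, 0 ≤ τ i) ∧ (∀ S ∈ H, 1 ≤ ∑ i ∈ S, τ i) ∧ t = ∑ i, τ i}

/-- The largest fractional cover number of an intersecting family of subsets of a set with `d`
elements. -/
noncomputable def tauStar (d : ℕ) : ℝ :=
  sSup {t | ∃ H : Finset (Finset (Fin d)), Intersecting H ∧ t = fracCover H}

end Pool.Agent.MP_a2955b_co.Orth
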