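import Pool.Agent.MP_a2955b_co.Orth.Upper

/-! A box without disjoint boxes is an orthogonal polyhedron. -/

set_option autoImplicit false

open Set

namespace Pool.Agent.MP_a2955b_co.Orth

variable {d : ℕ}

/-- `S` is a union of `n` faces -/
def HasFacesB (S : Set (E d)) (n : ℕ) : Prop :=
  ∃ F : Fin n → Set (E d), (∀ i, IsPolytope (d - 1) (F i) ∧ IsBox (F i)) ∧ S = ⋃ i, F i ∧
    ∀ i j, i ≠ j → F i ∩ F j ⊆ intrinsicFrontier ℝ (F i) ∩ intrinsicFrontier ℝ (F j)

lemma hasFacesB_of_fintype {S : Set (E d)} {J : Type*} [Fintype J] (F : J → Set (E d))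
    (h1 : ∀ i, IsPolytope (d - 1) (F i) ∧ IsBox (F i)) (h2 : S = ⋃ i, F i)
    (h3 : ∀ i j, i ≠ j → F i ∩ F j ⊆ intrinsicFrontier ℝ (F i)) :
    HasFacesB S (Fintype.card J) := by
  let e := (Fintype.equivFin J).symm
  refine ⟨F ∘ e, fun i => h1 _, ?_, fun i j hij => ?_⟩
  · rw [h2]
    exact (e.surjective.iUnion_comp F).symm
  · have hne : e i ≠ e j := fun h => hij (e.injective h)
    refine subset_inter (h3 _ _ hne) ?_
    rw [inter_comm]
    exact h3 _ _ hne.symm

lemma HasFacesB.union {S S' : Set (E d)} {n n' : ℕ} (h : HasFacesB S n) (h' : HasFacesB S' n')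
    (hd : Disjoint S S') : HasFacesB (S ∪ S') (n + n') := by
  obtain ⟨F, h1, h2, h3⟩ := h
  obtain ⟨F', h1', h2', h3'⟩ := h'
  have := hasFacesB_of_fintype (S := S ∪ S') (Sum.elim F F') ?_ ?_ ?_
  · simpa using this
  · rintro (i | i)
    · exact h1 i
    · exact h1' i
  · rw [iUnion_sum, h2, h2']; rfl
  · have hF : ∀ i, F i ⊆ S := fun i => h2 ▸ subset_iUnion F i
    have hF' : ∀ i, F' i ⊆ S' := fun i => h2' ▸ subset_iUnion F' i
    rintro (i | i) (j | j) hij
    · exact (h3 i j (fun e => hij (by rw [e]))).trans inter_subset_left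
    · intro x hx
      exact absurd (hF' j hx.2) (Set.disjoint_left.mp hd (hF i hx.1))
    · intro x hx
      exact absurd (hF' i hx.1) (Set.disjoint_left.mp hd (hF j hx.2))
    · exact (h3' i j (fun e => hij (by rw [e]))).trans inter_subset_left

lemma hasFacesB_empty : HasFacesB (∅ : Set (E d)) 0 :=
  ⟨Fin.elim0, fun i => i.elim0, by simp, fun i => i.elim0⟩

lemma hasFacesB_biUnion {α : Type*} (A : Finset α) (S : α → Set (E d)) (n : ℕ)
    (h : ∀ a ∈ A, HasFacesB (S a) n) (hd : ∀ a ∈ A, ∀ b ∈ A, a ≠ b → Disjoint (S a) (S b)) :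
    HasFacesB (⋃ a ∈ A, S a) (A.card * n) := by
  classical
  induction A using Finset.induction_on with
  | empty => simpa using hasFacesB_empty
  | insert a A ha ih =>
    rw [Finset.set_biUnion_insert, Finset.card_insert_of_notMem ha, add_mul, one_mul, add_comm]
    apply (h a (Finset.mem_insert_self _ _)).union
    · exact ih (fun b hb => h b (Finset.mem_insert_of_mem hb))
        (fun b hb c hc => hd b (Finset.mem_insert_of_mem hb) c (Finset.mem_insert_of_mem hc))
    · simp only [disjoint_iUnion_right]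
      intro b hb
      exact hd a (Finset.mem_insert_self _ _) b (Finset.mem_insert_of_mem hb)
        (fun e => ha (e ▸ hb))

theorem hasFacesB_box (h2 : 2 ≤ d) {lo hi : Fin d → ℝ}
    (h : ∀ c, lo c < hi c) (r : ℕ) : HasFacesB (frontier (crd d ⁻¹' Icc lo hi)) (2 * d + r) := by
  let ι := Fin d
  have hd : Fintype.card ι = d := Fintype.card_fin d
  set T := crd d
  have : Nontrivial ι := Fintype.one_lt_card_iff_nontrivial.mp (by omega)
  choose σ hσ using fun c : ι => exists_ne c
  obtain ⟨c₀⟩ : Nonempty ι := inferInstance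
  let ρ : ι × Bool → ℕ := Pi.single (c₀, true) r
  let e : ι × Bool → ℝ := fun p => if p.2 then hi p.1 else lo p.1
  let w : ι × Bool → ℝ := fun p => (hi (σ p.1) - lo (σ p.1)) / (ρ p + 1)
  have hw : ∀ p, 0 < w p := fun p => div_pos (sub_pos.mpr (h _)) (by positivity)
  have hw' : ∀ p, w p * (ρ p + 1) = hi (σ p.1) - lo (σ p.1) := fun p =>
    div_mul_cancel₀ _ (by positivity)
  let J := Σ p : ι × Bool, Fin (ρ p + 1)
  let L : J → ι → ℝ := fun j c => if c = j.1.1 then e j.1 else
    if c = σ j.1.1 then lo c + (j.2 : ℕ) * w j.1 else lo c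
  let U : J → ι → ℝ := fun j c => if c = j.1.1 then e j.1 else
    if c = σ j.1.1 then lo c + ((j.2 : ℕ) + 1) * w j.1 else hi c
  have hLU : ∀ j c, c ≠ j.1.1 → L j c < U j c := by
    intro j c hc
    simp only [L, U, if_neg hc]
    split_ifs
    · have := hw j.1; nlinarith
    · exact h c
  have hLe : ∀ j, L j j.1.1 = e j.1 := fun j => by simp [L]
  have hUe : ∀ j, U j j.1.1 = e j.1 := fun j => by simp [U]
  have he : ∀ p, e p = lo p.1 ∨ e p = hi p.1 := fun p => by
    simp only [e]; split_ifs <;> simp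
  have hloL : ∀ j c, lo c ≤ L j c := by
    intro j c
    simp only [L]
    split_ifs with h1 h2
    · rcases he j.1 with h3 | h3 <;> rw [h3, h1]
      exact (h _).le
    · have := hw j.1; nlinarith [(Nat.cast_nonneg (j.2 : ℕ) : (0 : ℝ) ≤ _)]
    · exact le_rfl
  have hUhi : ∀ j c, U j c ≤ hi c := by
    intro j c
    simp only [U]
    split_ifs with h1 h2
    · rcases he j.1 with h3 | h3 <;> rw [h3, h1]
      exact (h _).le
    · have h3 := hw j.1
      have h4 := hw' j.1
      have h5 : ((j.2 : ℕ) : ℝ) ≤ ρ j.1 := by exact_mod_cast Nat.lt_succ_iff.mp j.2.isLt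
      rw [h2]
      nlinarith
    · exact le_rfl
  have hcard : Fintype.card J = 2 * d + r := by
    simp only [J, Fintype.card_sigma, Fintype.card_fin, Finset.sum_add_distrib, ρ]
    simp [hd]
    ring
  rw [← hcard]
  apply hasFacesB_of_fintype (fun j : J => T ⁻¹' Icc (L j) (U j))
  · intro j
    exact ⟨isPolytope_facet T j.1.1 (by rw [hLe, hUe]) (hLU j), isBox_iff.2 ⟨_, _, rfl⟩⟩
  · rw [(isCompact_box T lo hi).isClosed.frontier_eq, interior_box]
    ext x
    simp only [mem_sdiff, mem_preimage, mem_Icc, mem_ofPred_eq, mem_iUnion, not_forall]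
    constructor
    · rintro ⟨⟨hx1, hx2⟩, c, hc⟩
      obtain ⟨s, hs⟩ : ∃ s : Bool, T x c = e (c, s) := by
        by_cases h1 : T x c = lo c
        · exact ⟨false, by simp [e, h1]⟩
        · refine ⟨true, ?_⟩
          have h3 : lo c < T x c := lt_of_le_of_ne (hx1 c) (Ne.symm h1)
          have h4 : ¬ T x c < hi c := fun h5 => hc ⟨h3, h5⟩
          simp only [e, if_true]
          exact le_antisymm (hx2 c) (not_lt.mp h4)
      have hwp := hw (c, s)
      have hwp' := hw' (c, s)
      obtain ⟨q, hq1, hq2⟩ := exists_strip (ρ (c, s)) (u := (T x (σ c) - lo (σ c)) / w (c, s))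
        (div_nonneg (sub_nonneg.mpr (hx1 _)) hwp.le) (by
          rw [div_le_iff₀ hwp]
          have := hx2 (σ c)
          simp only at hwp'
          linarith)
      rw [le_div_iff₀ hwp] at hq1
      rw [div_le_iff₀ hwp] at hq2
      refine ⟨⟨(c, s), q⟩, fun c' => ?_, fun c' => ?_⟩
      · simp only [L]
        split_ifs with h1 h3
        · rw [h1, hs]
        · rw [h3]; linarith
        · exact hx1 c'
      · simp only [U]
        split_ifs with h1 h3
        · rw [h1, hs]
        · rw [h3]; linarith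
        · exact hx2 c'
    · rintro ⟨j, hx1, hx2⟩
      refine ⟨⟨fun c => (hloL j c).trans (hx1 c), fun c => (hx2 c).trans (hUhi j c)⟩, j.1.1, ?_⟩
      have h3 := hx1 j.1.1
      have h4 := hx2 j.1.1
      rw [hLe] at h3
      rw [hUe] at h4
      rintro ⟨h5, h6⟩
      rcases he j.1 with h7 | h7 <;> linarith
  · rintro j j' hjj x ⟨hx, hx'⟩
    have h3 : T x j.1.1 = e j.1 := le_antisymm (hUe j ▸ hx.2 j.1.1) (hLe j ▸ hx.1 j.1.1)
    have h3' : T x j'.1.1 = e j'.1 := le_antisymm (hUe j' ▸ hx'.2 j'.1.1) (hLe j' ▸ hx'.1 j'.1.1)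
    by_cases hc : j'.1.1 = j.1.1
    · obtain ⟨⟨c, s⟩, q⟩ := j
      obtain ⟨⟨c', s'⟩, q'⟩ := j'
      simp only at hc
      subst hc
      have hs : s' = s := by
        by_contra hs
        have h5 := h c'
        simp only at h3 h3'
        rw [h3] at h3'
        cases s <;> cases s' <;> simp [e] at hs h3' <;> linarith
      subst hs
      have hq : (q : ℕ) ≠ q' := fun e => hjj (by rw [Fin.ext e])
      have hwp := hw (c', s')
      have a1 := hx.1 (σ c')
      have a2 := hx.2 (σ c')
      have a3 := hx'.1 (σ c')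
      have a4 := hx'.2 (σ c')
      apply box_mem_frontier T hx (σ c') (hLU _ _ (hσ c'))
      simp only [L, U, if_neg (hσ c'), if_true] at a1 a2 a3 a4 ⊢
      rcases lt_or_gt_of_ne hq with hlt | hlt
      · right
        have : ((q : ℕ) : ℝ) + 1 ≤ (q' : ℕ) := by exact_mod_cast hlt
        nlinarith
      · left
        have : ((q' : ℕ) : ℝ) + 1 ≤ (q : ℕ) := by exact_mod_cast hlt
        nlinarith
    · apply box_mem_frontier T hx j'.1.1 (hLU _ _ hc)
      have a1 := hx.1 j'.1.1
      have a2 := hx.2 j'.1.1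
      have a3 := hloL j j'.1.1
      have a4 := hUhi j j'.1.1
      rcases he j'.1 with h7 | h7
      · left; linarith
      · right; linarith

/-- removing disjoint convex bodies from a big one -/
theorem isOrthPolyhedron_diff {α : Type*} (A : Finset α) (B : Set (E d)) (O : α → Set (E d))
    (hB : IsCompact B) (hB' : closure (interior B) = B) (hO : ∀ a ∈ A, IsClosed (O a))
    (hO' : ∀ a ∈ A, closure (interior (O a)) = O a) (hOB : ∀ a ∈ A, O a ⊆ interior B)
    (hd : ∀ a ∈ A, ∀ b ∈ A, a ≠ b → Disjoint (O a) (O b)) {n n' : ℕ}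
    (hfB : HasFacesB (frontier B) n) (hfO : ∀ a ∈ A, HasFacesB (frontier (O a)) n') :
    IsOrthPolyhedron (B \ ⋃ a ∈ A, interior (O a)) (n + A.card * n') := by
  set P := B \ ⋃ a ∈ A, interior (O a) with hP
  have hUo : IsOpen (⋃ a ∈ A, interior (O a)) := isOpen_biUnion (fun _ _ => isOpen_interior)
  have hUc : IsClosed (⋃ a ∈ A, O a) := isClosed_biUnion_finset hO
  have hPc : IsCompact P := hB.diff hUo
  have hint : interior P = interior B \ ⋃ a ∈ A, O a := by
    rw [hP, sdiff_eq, interior_inter, interior_compl, A.closure_biUnion, sdiff_eq]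
    congr 2
    exact iUnion₂_congr hO'
  refine ⟨hPc, ?_, ?_⟩
  · apply subset_antisymm (hPc.isClosed.closure_subset_iff.mpr interior_subset)
    rintro x ⟨hxB, hxO⟩
    rw [hint]
    by_cases hx : x ∈ ⋃ a ∈ A, O a
    · simp only [mem_iUnion, exists_prop] at hx
      obtain ⟨a, ha, hxa⟩ := hx
      classical
      have hV : IsOpen (interior B \ ⋃ b ∈ A.erase a, O b) :=
        isOpen_interior.sdiff (isClosed_biUnion_finset (fun b hb => hO b (Finset.mem_of_mem_erase hb)))
      have hxV : x ∈ interior B \ ⋃ b ∈ A.erase a, O b := by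
        refine ⟨hOB a ha hxa, ?_⟩
        simp only [mem_iUnion, exists_prop, not_exists, not_and]
        intro b hb hxb
        exact Set.disjoint_left.mp (hd a ha b (Finset.mem_of_mem_erase hb)
          (Finset.ne_of_mem_erase hb).symm) hxa hxb
      have hxc : x ∈ closure (O a)ᶜ := by
        rw [closure_compl]
        intro hxi
        exact hxO (mem_biUnion ha hxi)
      refine closure_mono ?_ (hV.inter_closure ⟨hxV, hxc⟩)
      rintro y ⟨⟨hy1, hy2⟩, hy3⟩
      refine ⟨hy1, ?_⟩
      simp only [mem_iUnion, exists_prop, not_exists, not_and] at hy2 ⊢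
      intro b hb hyb
      by_cases hba : b = a
      · exact hy3 (hba ▸ hyb)
      · exact hy2 b (Finset.mem_erase.mpr ⟨hba, hb⟩) hyb
    · have := hUc.isOpen_compl.inter_closure (t := interior B) ⟨hx, hB'.symm ▸ hxB⟩
      rwa [inter_comm, ← sdiff_eq] at this
  · have hfr : frontier P = frontier B ∪ ⋃ a ∈ A, frontier (O a) := by
      rw [hPc.isClosed.frontier_eq, hint, hB.isClosed.frontier_eq]
      ext x
      simp only [hP, mem_sdiff, mem_iUnion, exists_prop, mem_union, not_and, not_not]
      constructor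
      · rintro ⟨⟨h1, h2⟩, h3⟩
        by_cases h4 : x ∈ interior B
        · obtain ⟨a, ha, hxa⟩ := h3 h4
          right
          refine ⟨a, ha, ?_⟩
          rw [(hO a ha).frontier_eq]
          exact ⟨hxa, fun hi => h2 ⟨a, ha, hi⟩⟩
        · exact Or.inl ⟨h1, h4⟩
      · rintro (⟨h1, h2⟩ | ⟨a, ha, hxa⟩)
        · refine ⟨⟨h1, ?_⟩, fun h3 => absurd h3 h2⟩
          rintro ⟨a, ha, hi⟩
          exact h2 (hOB a ha (interior_subset hi))
        · rw [(hO a ha).frontier_eq] at hxa
          refine ⟨⟨interior_subset (hOB a ha hxa.1), ?_⟩, fun _ => ⟨a, ha, hxa.1⟩⟩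
          rintro ⟨b, hb, hi⟩
          by_cases hba : b = a
          · exact hxa.2 (hba ▸ hi)
          · exact Set.disjoint_left.mp (hd b hb a ha hba) (interior_subset hi) hxa.1
    have := hfB.union (hasFacesB_biUnion A (fun a => frontier (O a)) n' hfO (fun a ha b hb hab =>
      (hd a ha b hb hab).mono (hO a ha).frontier_subset (hO b hb).frontier_subset)) (by
        simp only [disjoint_iUnion_right]
        intro a ha
        exact (disjoint_interior_frontier.symm).mono_right
          ((hO a ha).frontier_subset.trans (hOB a ha)))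
    rw [← hfr] at this
    exact this

end Pool.Agent.MP_a2955b_co.Orth
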