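import Pool.Agent.MP_a2955b_co.Orth.Defs

/-! Counting lemmas and small point sets that meet all large parallelepipeds. -/

set_option autoImplicit false

namespace Pool.Agent.MP_a2955b_co.Orth

open Finset Function

variable {d : ℕ}

/-- greedy hitting sets -/
lemma hit {X I : Type} [Fintype X] [Nonempty X] [DecidableEq X] (R : I → Finset X) {ρ : ℝ}
    (hρ : ρ ≤ 1) (t : ℕ) : ∀ A : Finset I, (∀ i ∈ A, ρ * Fintype.card X ≤ (R i).card) →
      A.card * (1 - ρ) ^ t < 1 → ∃ Y : Finset X, Y.card ≤ t ∧ ∀ i ∈ A, ∃ y ∈ Y, y ∈ R i := by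
  induction t with
  | zero =>
    intro A _ h
    rw [pow_zero, mul_one, Nat.cast_lt_one, card_eq_zero] at h
    exact ⟨∅, le_rfl, by simp [h]⟩
  | succ t ih =>
    intro A hA h
    have h1 : ∑ y : X, ((A.filter fun i => y ∉ R i).card : ℝ) ≤ ∑ _y : X, A.card * (1 - ρ) := by
      simp only [card_filter, Nat.cast_sum]
      rw [sum_comm, sum_const, card_univ, nsmul_eq_mul]
      calc _ ≤ ∑ _i ∈ A, (Fintype.card X : ℝ) * (1 - ρ) := sum_le_sum fun i hi => by
            have h2 := card_filter_add_card_filter_not (s := (univ : Finset X)) fun y => y ∈ R i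
            rw [filter_mem_eq_inter, univ_inter, card_univ, card_filter] at h2
            have h3 := congrArg (Nat.cast (R := ℝ)) h2
            rw [Nat.cast_add, Nat.cast_sum] at h3
            linarith [hA i hi]
        _ = _ := by rw [sum_const, nsmul_eq_mul]; ring
    obtain ⟨y, -, hy⟩ := exists_le_of_sum_le univ_nonempty h1
    obtain ⟨Y, k1, k2⟩ := ih (A.filter fun i => y ∉ R i) (fun i hi => hA i (mem_filter.1 hi).1)
      (lt_of_le_of_lt (by
        rw [pow_succ', ← mul_assoc]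
        exact mul_le_mul_of_nonneg_right hy (pow_nonneg (by linarith) _)) h)
    refine ⟨insert y Y, (card_insert_le _ _).trans (by omega), fun i hi => ?_⟩
    by_cases e : y ∈ R i
    · exact ⟨y, mem_insert_self _ _, e⟩
    · obtain ⟨z, hz, hz'⟩ := k2 i (mem_filter.2 ⟨hi, e⟩)
      exact ⟨z, mem_insert_of_mem hz, hz'⟩

open Classical in
/-- counting coordinate by coordinate, lower bound -/
lemma tri_count {X : Type} [Fintype X] [Nonempty X] (Pr : ℕ → (Fin d → X) → Prop)
    (c : Fin d → ℝ) (hc : ∀ m, 0 ≤ c m) (h0 : ∀ y, Pr 0 y)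
    (hs : ∀ (m : Fin d) y, Pr m y →
      c m * Fintype.card X ≤ (univ.filter fun x => Pr (m + 1) (update y m x)).card) :
    (∏ m, c m) * Fintype.card (Fin d → X) ≤ (univ.filter (Pr d)).card := by
  have key : ∀ k, k ≤ d → (∏ m ∈ univ.filter (fun m : Fin d => (m : ℕ) < k), c m) *
      Fintype.card (Fin d → X) ≤ (univ.filter (Pr k)).card := by
    intro k
    induction k with
    | zero =>
      intro _
      rw [filter_true_of_mem fun y _ => h0 y]
      simp
    | succ k ih =>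
      intro hk
      let m : Fin d := ⟨k, hk⟩
      have e : univ.filter (fun i : Fin d => (i : ℕ) < k + 1) =
          insert m (univ.filter fun i : Fin d => (i : ℕ) < k) := by
        ext i
        simp only [mem_filter, mem_univ, true_and, mem_insert, Fin.ext_iff, m]
        omega
      have hX : (0 : ℝ) < Fintype.card X := by exact_mod_cast Fintype.card_pos
      have h1 : ∑ y : Fin d → X, (univ.filter fun x => Pr (k + 1) (update y m x)).card =
          (univ.filter (Pr (k + 1))).card * Fintype.card X := by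
        have h2 : ∑ z : (Fin d → X) × X, (if Pr (k + 1) (update z.1 m z.2) then 1 else 0) =
            ∑ z : (Fin d → X) × X, if Pr (k + 1) z.1 then 1 else 0 :=
          Fintype.sum_bijective (fun z => (update z.1 m z.2, z.1 m))
            (Involutive.bijective fun z => by simp) _ _ fun _ => rfl
        rw [Fintype.sum_prod_type, Fintype.sum_prod_type] at h2
        simp only [card_filter]
        rw [h2, sum_mul]
        refine sum_congr rfl fun y _ => ?_
        by_cases h : Pr (k + 1) y <;> simp [h]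
      have h3 : ((univ.filter (Pr k)).card : ℝ) * (c m * Fintype.card X) ≤
          ∑ y : Fin d → X, ((univ.filter fun x => Pr (k + 1) (update y m x)).card : ℝ) := by
        rw [← nsmul_eq_mul]
        exact (card_nsmul_le_sum _ _ _ fun y hy => hs m y (mem_filter.1 hy).2).trans
          (sum_le_sum_of_subset_of_nonneg (subset_univ _) fun _ _ _ => Nat.cast_nonneg _)
      rw [← Nat.cast_sum, h1, Nat.cast_mul, ← mul_assoc] at h3
      have h4 := le_of_mul_le_mul_right h3 hX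
      rw [e, prod_insert (by simp [m]), mul_assoc]
      refine le_trans (mul_le_mul_of_nonneg_left (ih (by omega)) (hc m)) ?_
      rwa [mul_comm]
  simpa using key d le_rfl

/-- counting coordinate by coordinate, upper bound -/
lemma card_le_prod {N : ℕ} (Z : Finset (Fin d → Fin N)) (w : Fin d → ℕ)
    (h : ∀ i, ∀ z ∈ Z, ∀ z' ∈ Z, (∀ l < i, z l = z' l) → (z' i : ℕ) ≤ z i + w i) :
    Z.card ≤ ∏ i, (w i + 1) := by
  have h1 : (Fintype.piFinset fun i => range (w i + 1)).card = ∏ i, (w i + 1) := by simp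
  rw [← h1]
  refine card_le_card_of_injOn (fun z i => (z i : ℕ) % (w i + 1)) (fun z _ => ?_) ?_
  · exact mem_coe.2 (Fintype.mem_piFinset.2 fun i => mem_range.2 (Nat.mod_lt _ (by omega)))
  intro z hz z' hz' e
  funext i
  induction i using WellFoundedLT.induction with
  | ind i ih =>
    have k1 := h i z hz z' hz' ih
    have k2 := h i z' hz' z hz fun l hl => (ih l hl).symm
    have k3 : (z i : ℕ) ≡ z' i [MOD w i + 1] := congrFun e i
    refine Fin.ext ?_
    rcases le_total (z i : ℕ) (z' i) with k | k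
    · have := Nat.eq_zero_of_dvd_of_lt ((Nat.modEq_iff_dvd' k).1 k3) (by omega)
      omega
    · have := Nat.eq_zero_of_dvd_of_lt ((Nat.modEq_iff_dvd' k).1 k3.symm) (by omega)
      omega

/-- the average of points on segments between scaled grid points -/
noncomputable def pt {N : ℕ} (S : Finset (Fin d)) (B : ℝ) (p q : Fin d → Fin d → Fin N)
    (τ : Fin d → ℝ) (l : Fin d) : ℝ :=
  B / S.card * ∑ i ∈ S, (((p i l : ℕ) : ℝ) + τ i * ((q i l : ℕ) - (p i l : ℕ)))

lemma pt_update {N : ℕ} {S : Finset (Fin d)} (B : ℝ) (p q : Fin d → Fin d → Fin N)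
    (τ : Fin d → ℝ) {m : Fin d} (hm : m ∈ S) (u : ℝ) (l : Fin d) :
    pt S B p q (update τ m u) l =
      pt S B p q τ l + B / S.card * ((u - τ m) * ((q m l : ℕ) - (p m l : ℕ))) := by
  rw [pt, pt, ← mul_add, ← add_sum_erase _ _ hm, ← add_sum_erase _ _ hm, update_self,
    sum_congr rfl fun i hi => by rw [update_of_ne (ne_of_mem_erase hi)]]
  ring

lemma pt_mem {M : ℕ} {S : Finset (Fin d)} (hS : S.Nonempty) {B : ℝ} (hB : 0 ≤ B)
    (p q : Fin d → Fin d → Fin (M + 1)) {τ : Fin d → ℝ} (hτ : ∀ i, 0 ≤ τ i ∧ τ i ≤ 1)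
    (l : Fin d) : 0 ≤ pt S B p q τ l ∧ pt S B p q τ l ≤ B * M := by
  have hs : (0 : ℝ) < S.card := by exact_mod_cast hS.card_pos
  have h1 : ∀ i, 0 ≤ (((p i l : ℕ) : ℝ) + τ i * ((q i l : ℕ) - (p i l : ℕ))) ∧
      (((p i l : ℕ) : ℝ) + τ i * ((q i l : ℕ) - (p i l : ℕ))) ≤ M := by
    intro i
    have a1 : ((p i l : ℕ) : ℝ) ≤ M := by exact_mod_cast Nat.lt_succ_iff.1 (p i l).2
    have a2 : ((q i l : ℕ) : ℝ) ≤ M := by exact_mod_cast Nat.lt_succ_iff.1 (q i l).2
    have a3 : (0 : ℝ) ≤ (p i l : ℕ) := Nat.cast_nonneg _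
    have a4 : (0 : ℝ) ≤ (q i l : ℕ) := Nat.cast_nonneg _
    have a5 := hτ i
    constructor <;> nlinarith
  refine ⟨mul_nonneg (by positivity) (sum_nonneg fun i _ => (h1 i).1), ?_⟩
  have h2 := sum_le_card_nsmul S _ (M : ℝ) fun i _ => (h1 i).2
  rw [nsmul_eq_mul] at h2
  calc _ ≤ B / S.card * (S.card * M) := mul_le_mul_of_nonneg_left h2 (by positivity)
    _ = _ := by field_simp

open Classical in
lemma net {S : Finset (Fin d)} (hS : S.Nonempty) {κ e M t : ℕ} (he : e < κ) (hM : 1 ≤ M)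
    (ht : ((((M + 1) ^ d) ^ d) ^ 2 : ℕ) * (1 - 1 / ((2 * d) ^ d * M : ℝ)) ^ t < 1) :
    ∃ Y : Finset (Fin d → Fin (2 * d * M)), Y.card ≤ t ∧
      ∀ p q : Fin d → Fin d → Fin (M + 1), (∀ i ∈ S, (∀ l < i, p i l = q i l) ∧ p i i < q i i) →
        (M : ℝ) ^ S.card ≤ M * ∏ i ∈ S, (((q i i : ℕ) : ℝ) - (p i i : ℕ)) →
        ∃ y ∈ Y, ∃ τ : Fin d → ℝ, (∀ i, 0 ≤ τ i ∧ τ i ≤ 1) ∧
          ∀ l ∈ S, ((y l : ℕ) * κ + e : ℝ) = pt S (2 * d * κ) p q τ l := by
  have hd : 1 ≤ d := by obtain ⟨i, -⟩ := hS; exact i.pos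
  have hd' : (1 : ℝ) ≤ d := by exact_mod_cast hd
  have hM' : (1 : ℝ) ≤ M := by exact_mod_cast hM
  have hκ : (0 : ℝ) < κ := by exact_mod_cast (show 0 < κ by omega)
  have he' : (e : ℝ) < κ := by exact_mod_cast he
  have hs : (0 : ℝ) < S.card := by exact_mod_cast hS.card_pos
  have hsd : S.card ≤ d := by simpa using card_le_univ S
  have hsd' : (S.card : ℝ) ≤ d := by exact_mod_cast hsd
  have : Nonempty (Fin (2 * d * M)) := ⟨⟨0, by positivity⟩⟩
  let Pr : (Fin d → Fin d → Fin (M + 1)) × (Fin d → Fin d → Fin (M + 1)) → ℕ →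
      (Fin d → Fin (2 * d * M)) → Prop := fun z m y => ∃ τ : Fin d → ℝ,
    (∀ i, 0 ≤ τ i ∧ τ i ≤ 1) ∧
      ∀ l ∈ S, (l : ℕ) < m → ((y l : ℕ) * κ + e : ℝ) = pt S (2 * d * κ) z.1 z.2 τ l
  have h2d : (1 : ℝ) ≤ (2 * d) ^ d := one_le_pow₀ (by linarith)
  have key := hit (fun z => univ.filter (Pr z d)) (ρ := 1 / ((2 * d) ^ d * M : ℝ))
    (by rw [div_le_one (by positivity)]; exact one_le_mul_of_one_le_of_one_le h2d hM') t
    (univ.filter fun z => (∀ i ∈ S, (∀ l < i, z.1 i l = z.2 i l) ∧ z.1 i i < z.2 i i) ∧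
      (M : ℝ) ^ S.card ≤ M * ∏ i ∈ S, (((z.2 i i : ℕ) : ℝ) - (z.1 i i : ℕ))) ?_ ?_
  · obtain ⟨Y, hY1, hY2⟩ := key
    refine ⟨Y, hY1, fun p q h1 h2 => ?_⟩
    obtain ⟨y, hy, hy'⟩ := hY2 (p, q) (mem_filter.2 ⟨mem_univ _, h1, h2⟩)
    obtain ⟨τ, k1, k2⟩ := (mem_filter.1 hy').2
    exact ⟨y, hy, τ, k1, fun l hl => k2 l hl l.2⟩
  · rintro ⟨p, q⟩ hz
    obtain ⟨-, h1, h2⟩ := mem_filter.1 hz
    dsimp only at h1 h2
    have hw : ∀ m ∈ S, (1 : ℝ) ≤ ((q m m : ℕ) : ℝ) - (p m m : ℕ) := fun m hm => by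
      have : ((p m m : ℕ) : ℝ) + 1 ≤ (q m m : ℕ) := by exact_mod_cast (h1 m hm).2
      linarith
    refine le_trans (mul_le_mul_of_nonneg_right ?_ (Nat.cast_nonneg _)) (tri_count (Pr (p, q))
      (fun m => if m ∈ S then (((q m m : ℕ) : ℝ) - (p m m : ℕ)) / (2 * d * M) else 1)
      (fun m => ?_) (fun y => ⟨0, by simp, by simp⟩) ?_)
    · rw [prod_ite_mem, univ_inter, prod_div_distrib, prod_const,
        div_le_div_iff₀ (by positivity) (by positivity), one_mul, mul_pow]
      have k1 : (2 * d : ℝ) ^ S.card ≤ (2 * d) ^ d := pow_le_pow_right₀ (by linarith) hsd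
      calc _ ≤ (2 * d : ℝ) ^ d * (M * ∏ i ∈ S, (((q i i : ℕ) : ℝ) - (p i i : ℕ))) :=
            mul_le_mul k1 h2 (by positivity) (by positivity)
        _ = _ := by ring
    · split_ifs with hm
      · exact div_nonneg (by linarith [hw m hm]) (by positivity)
      · exact zero_le_one
    rintro m y ⟨τ, t1, t2⟩
    have hlt : ∀ l : Fin d, (l : ℕ) < m + 1 → l ≠ m → l < m := fun l h h' =>
      lt_of_le_of_ne (Nat.lt_succ_iff.1 h) h'
    split_ifs with hm
    swap
    · rw [one_mul, filter_true_of_mem, card_univ]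
      refine fun x _ => ⟨τ, t1, fun l hl hl' => ?_⟩
      have e1 : l ≠ m := fun e1 => hm (e1 ▸ hl)
      rw [update_of_ne e1]
      exact t2 l hl (hlt l hl' e1)
    have hup : ∀ u : ℝ, 0 ≤ u → u ≤ 1 → ∀ i, 0 ≤ update τ m u i ∧ update τ m u i ≤ 1 := by
      intro u u1 u2 i
      by_cases e1 : i = m
      · subst e1; simpa using ⟨u1, u2⟩
      · simpa only [update_of_ne e1] using t1 i
    obtain ⟨w, hw'⟩ := Nat.exists_eq_add_of_le (h1 m hm).2.le
    have hw1 : ((q m m : ℕ) : ℝ) - (p m m : ℕ) = w := by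
      rw [show (q m m : ℕ) = p m m + w from hw']; push_cast; ring
    have hw2 := hw m hm
    rw [hw1] at hw2 ⊢
    set α := pt S (2 * d * κ) p q (update τ m 0) m with hα
    set len : ℝ := 2 * d * κ / S.card * w with hlen
    have hα0 : 0 ≤ α := (pt_mem hS (by positivity) p q (hup 0 le_rfl zero_le_one) m).1
    have hval : ∀ u, pt S (2 * d * κ) p q (update τ m u) m = α + u * len := fun u => by
      rw [hα, pt_update _ _ _ _ hm, pt_update _ _ _ _ hm, hw1, hlen]
      ring
    have hα1 : α + len ≤ 2 * d * κ * M := by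
      have := (pt_mem hS (B := 2 * d * κ) (by positivity) p q (hup 1 zero_le_one le_rfl) m).2
      rwa [hval, one_mul] at this
    have hlen2 : 2 * κ * w ≤ len := by
      refine mul_le_mul_of_nonneg_right ?_ (by linarith)
      rw [le_div_iff₀ hs]
      nlinarith
    have hlen0 : 0 < len := lt_of_lt_of_le (by positivity) hlen2
    rw [Fintype.card_fin, Nat.cast_mul, Nat.cast_mul, Nat.cast_ofNat,
      div_mul_cancel₀ _ (by positivity), Nat.cast_le]
    refine le_trans (le_of_eq (by simp)) ((card_le_card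
      (s := Ico ⌈α / κ⌉₊ (⌈α / κ⌉₊ + w)) fun k hk => ?_).trans (card_image_le (f := Fin.val)))
    obtain ⟨k1, k2⟩ := mem_Ico.1 hk
    have k3 : α ≤ k * κ := (div_le_iff₀ hκ).1 (Nat.ceil_le.1 k1)
    have k4 : (k : ℝ) + 1 ≤ ⌈α / κ⌉₊ + w := by exact_mod_cast k2
    have k5 := Nat.ceil_lt_add_one (div_nonneg hα0 hκ.le)
    have k6 : (k : ℝ) - w < α / κ := by linarith
    rw [lt_div_iff₀ hκ] at k6
    have k7 : k * κ + e < α + len := by nlinarith
    have k8 : (0 : ℝ) ≤ e := Nat.cast_nonneg _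
    have k9 : k < 2 * d * M := by
      have : (k : ℝ) * κ < 2 * d * M * κ := by linarith
      exact_mod_cast lt_of_mul_lt_mul_right this hκ.le
    refine mem_image.2 ⟨⟨k, k9⟩, mem_filter.2 ⟨mem_univ _, update τ m ((k * κ + e - α) / len),
      hup _ (div_nonneg (by linarith) hlen0.le) ((div_le_one hlen0).2 (by linarith)),
      fun l hl hl' => ?_⟩, rfl⟩
    dsimp only
    by_cases e1 : l = m
    · subst e1
      rw [update_self, hval, div_mul_cancel₀ _ hlen0.ne']
      ring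
    · rw [update_of_ne e1, pt_update _ _ _ _ hm, (h1 m hm).1 l (hlt l hl' e1), sub_self, mul_zero,
        mul_zero, add_zero]
      exact t2 l hl (hlt l hl' e1)
  · refine lt_of_le_of_lt (mul_le_mul_of_nonneg_right ?_ (pow_nonneg ?_ _)) ht
    · rw [Nat.cast_le]
      refine (card_le_univ _).trans (le_of_eq ?_)
      simp [sq]
    · rw [sub_nonneg, div_le_one (by positivity)]
      exact one_le_mul_of_one_le_of_one_le h2d hM'

end Pool.Agent.MP_a2955b_co.Orth
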