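import Pool.Agent.MP_a2955b_co.Orth.Faces
import Pool.Agent.MP_a2955b_co.Orth.Net

/-! The lower bound for orthogonal polyhedra. -/

set_option autoImplicit false

namespace Pool.Agent.MP_a2955b_co.Orth

open Finset

variable {d : ℕ}

/-- A set of grid points without large parallelepipeds in the directions of `H` is small. -/
lemma piece {H : Finset (Finset (Fin d))} {φ : ℝ}
    (hφ : ∀ τ : Fin d → ℝ, (∀ i, 0 ≤ τ i) → (∀ S ∈ H, 1 ≤ ∑ i ∈ S, τ i) → φ ≤ ∑ i, τ i)
    {M : ℕ} (hM : 2 ≤ M) (Z : Finset (Fin d → Fin (M + 1)))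
    (hZ : ∀ S ∈ H, ∀ p q : Fin d → Fin d → Fin (M + 1), (∀ i, p i ∈ Z ∧ q i ∈ Z) →
      (∀ i ∈ S, (∀ l < i, p i l = q i l) ∧ p i i < q i i) →
      M * ∏ i ∈ S, (((q i i : ℕ) : ℝ) - (p i i : ℕ)) ≤ (M : ℝ) ^ S.card) :
    (Z.card : ℝ) * (M : ℝ) ^ φ ≤ 2 ^ d * (M : ℝ) ^ d := by
  classical
  have hM1 : (1 : ℝ) < M := by exact_mod_cast hM
  rcases Z.eq_empty_or_nonempty with rfl | ⟨z₀, hz₀⟩
  · rw [card_empty, Nat.cast_zero, zero_mul]
    positivity
  have hex : ∀ i : Fin d, ∃ u ∈ (Z ×ˢ Z).filter fun u => ∀ l < i, u.1 l = u.2 l,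
      ∀ u' ∈ (Z ×ˢ Z).filter fun u => ∀ l < i, u.1 l = u.2 l,
        ((u'.2 i : ℕ) : ℤ) - (u'.1 i : ℕ) ≤ ((u.2 i : ℕ) : ℤ) - (u.1 i : ℕ) := fun i =>
    exists_max_image _ _ ⟨(z₀, z₀), mem_filter.2 ⟨mk_mem_product hz₀ hz₀, fun _ _ => rfl⟩⟩
  choose u hu hmax using hex
  have hu1 : ∀ i, (u i).1 ∈ Z ∧ (u i).2 ∈ Z := fun i => mem_product.1 (mem_filter.1 (hu i)).1
  have hu2 : ∀ i, ∀ l < i, (u i).1 l = (u i).2 l := fun i => (mem_filter.1 (hu i)).2
  have hle : ∀ i, ((u i).1 i : ℕ) ≤ (u i).2 i := fun i => by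
    have := hmax i (z₀, z₀) (mem_filter.2 ⟨mk_mem_product hz₀ hz₀, fun _ _ => rfl⟩)
    dsimp only at this
    omega
  choose w hw using fun i => Nat.exists_eq_add_of_le (hle i)
  have h1 := card_le_prod Z w fun i z hz z' hz' h => by
    have := hmax i (z, z') (mem_filter.2 ⟨mk_mem_product hz hz', h⟩)
    have := hw i
    dsimp only at *
    omega
  let v : Fin d → ℝ := fun i => (max (w i) 1 : ℕ)
  have hv1 : ∀ i, 1 ≤ v i := fun i => Nat.one_le_cast.2 (le_max_right _ _)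
  have hv0 : ∀ i, 0 < v i := fun i => by linarith [hv1 i]
  have hv2 : ∀ i, v i ≤ M := fun i => Nat.cast_le.2 (by
    have := hw i
    have := ((u i).2 i).2
    omega)
  have h2 : (Z.card : ℝ) ≤ 2 ^ d * ∏ i, v i := by
    calc (Z.card : ℝ) ≤ ∏ i, ((w i + 1 : ℕ) : ℝ) := by exact_mod_cast h1
      _ ≤ ∏ i, 2 * v i := prod_le_prod (fun _ _ => Nat.cast_nonneg _) fun i _ => by
          have : w i + 1 ≤ 2 * max (w i) 1 := by omega
          simp only [v]
          exact_mod_cast this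
      _ = _ := by rw [prod_mul_distrib, prod_const, card_univ, Fintype.card_fin]
  have h3 : ∀ S ∈ H, M * ∏ i ∈ S, v i ≤ (M : ℝ) ^ S.card := by
    intro S hS
    by_cases h : ∀ i ∈ S, 1 ≤ w i
    · refine le_trans (le_of_eq ?_) (hZ S hS (fun i => (u i).1) (fun i => (u i).2) hu1
        fun i hi => ⟨hu2 i, by
          have := hw i
          have := h i hi
          exact Fin.lt_def.2 (by omega)⟩)
      congr 1
      refine prod_congr rfl fun i hi => ?_
      simp only [v, hw i, max_eq_left (h i hi)]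
      push_cast
      ring
    · push Not at h
      obtain ⟨i, hi, hi'⟩ := h
      have e : v i = 1 := by simp only [v, max_eq_right hi'.le, Nat.cast_one]
      rw [← mul_prod_erase _ _ hi, e, one_mul, ← card_erase_add_one hi, pow_succ']
      refine mul_le_mul_of_nonneg_left ?_ (by linarith)
      rw [← prod_const]
      exact prod_le_prod (fun _ _ => (hv0 _).le) fun c _ => hv2 c
  have hL : 0 < Real.log M := Real.log_pos hM1
  have hsum : ∀ S : Finset (Fin d), ∑ i ∈ S, Real.log (M / v i) / Real.log M =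
      Real.log ((M : ℝ) ^ S.card / ∏ i ∈ S, v i) / Real.log M := fun S => by
    rw [← sum_div, ← Real.log_prod fun i _ => (div_pos (by linarith) (hv0 i)).ne',
      prod_div_distrib, prod_const]
  have hP : ∀ S : Finset (Fin d), 0 < ∏ i ∈ S, v i := fun S => prod_pos fun i _ => hv0 i
  have h4 := hφ (fun i => Real.log (M / v i) / Real.log M)
    (fun i => div_nonneg (Real.log_nonneg ((one_le_div (hv0 i)).2 (hv2 i))) hL.le) fun S hS => by
      rw [hsum, one_le_div hL]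
      exact Real.log_le_log (by linarith) ((le_div_iff₀ (hP S)).2 (h3 S hS))
  rw [hsum, le_div_iff₀ hL, card_univ, Fintype.card_fin, ← Real.log_rpow (by linarith),
    Real.log_le_log_iff (by positivity) (div_pos (by positivity) (hP _)),
    le_div_iff₀ (hP _)] at h4
  calc _ ≤ (2 ^ d * ∏ i, v i) * (M : ℝ) ^ φ := mul_le_mul_of_nonneg_right h2 (by positivity)
    _ = 2 ^ d * ((M : ℝ) ^ φ * ∏ i, v i) := by ring
    _ ≤ _ := mul_le_mul_of_nonneg_left h4 (by positivity)

lemma near_nat {a b : ℕ} (h1 : (a : ℝ) < b + 1) (h2 : (b : ℝ) < a + 1) : a = b := by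
  have k1 : a < b + 1 := by exact_mod_cast h1
  have k2 : b < a + 1 := by exact_mod_cast h2
  omega

theorem construct (hd : 2 ≤ d) {H : Finset (Finset (Fin d))} (hH : Intersecting H) {φ : ℝ}
    (hφ : ∀ τ : Fin d → ℝ, (∀ i, 0 ≤ τ i) → (∀ S ∈ H, 1 ≤ ∑ i ∈ S, τ i) → φ ≤ ∑ i, τ i)
    {M t n : ℕ} (hM : 2 ≤ M)
    (ht : ((((M + 1) ^ d) ^ d) ^ 2 : ℕ) * (1 - 1 / ((2 * d) ^ d * M : ℝ)) ^ t < 1)
    (hn : 2 * d + 2 ^ d * t * (2 * d) ≤ n) :
    ∃ P : Set (E d), IsOrthPolyhedron P n ∧ ∀ (N : ℕ) (C : Fin N → Set (E d)),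
      IsConvexPartition P C → (M : ℝ) ^ φ ≤ 2 ^ d * N := by
  classical
  have hne : ∀ S ∈ H, S.Nonempty := fun S hS => by simpa using hH S hS S hS
  obtain ⟨κ, hκ⟩ : ∃ κ, κ = 2 ^ d + 1 := ⟨_, rfl⟩
  let e : Finset (Fin d) → ℕ := fun S => (Fintype.equivFin (Finset (Fin d)) S : ℕ) + 1
  have he : ∀ S, e S < κ := fun S => by
    have := (Fintype.equivFin (Finset (Fin d)) S).2
    have h2 : Fintype.card (Finset (Fin d)) = 2 ^ d := by simp
    simp only [e]
    omega
  have heinj : ∀ S T, e S = e T → S = T := fun S T h =>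
    (Fintype.equivFin (Finset (Fin d))).injective (Fin.ext (Nat.succ_injective h))
  choose! Y hY1 hY2 using fun (S : Finset (Fin d)) (hS : S.Nonempty) =>
    net hS (he S) (show 1 ≤ M by omega) ht
  let g : Finset (Fin d) → (Fin d → Fin (2 * d * M)) → Finset (Fin d) × (Fin d → ℕ) :=
    fun S y => (S, fun l => if l ∈ S then (y l : ℕ) * κ + e S else 0)
  let A := H.biUnion fun S => (Y S).image (g S)
  obtain ⟨R, hR⟩ : ∃ R : ℝ, R = 2 * d * κ * M := ⟨_, rfl⟩
  have hR0 : 0 ≤ R := by rw [hR]; positivity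
  have hA : ∀ o ∈ A, o.1 ∈ H ∧ (∀ l ∈ o.1, o.2 l % κ = e o.1 ∧ (o.2 l : ℝ) ≤ R) ∧
      ∀ l, l ∉ o.1 → o.2 l = 0 := by
    intro o ho
    obtain ⟨S, hS, ho⟩ := mem_biUnion.1 ho
    obtain ⟨y, -, rfl⟩ := mem_image.1 ho
    refine ⟨hS, fun l hl => ?_, fun l hl => if_neg hl⟩
    have e1 : (g S y).2 l = (y l : ℕ) * κ + e S := if_pos hl
    rw [e1]
    refine ⟨by rw [Nat.mul_add_mod_of_lt (he S)], ?_⟩
    have k1 := Nat.mul_le_mul_right κ (show (y l : ℕ) + 1 ≤ 2 * d * M from (y l).2)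
    have k2 : (y l : ℕ) * κ + e S ≤ 2 * d * κ * M := by
      have := he S
      nlinarith
    rw [hR]
    exact_mod_cast k2
  have hcard : A.card ≤ 2 ^ d * t := by
    refine (card_biUnion_le_card_mul _ _ t fun S hS => card_image_le.trans (hY1 S (hne S hS))).trans
      (Nat.mul_le_mul_right _ ?_)
    simpa using card_le_univ H
  let lo : Finset (Fin d) × (Fin d → ℕ) → Fin d → ℝ := fun o l =>
    if l ∈ o.1 then (o.2 l : ℝ) - 1 / 3 else -1
  let hi : Finset (Fin d) × (Fin d → ℕ) → Fin d → ℝ := fun o l =>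
    if l ∈ o.1 then (o.2 l : ℝ) + 1 / 3 else R + 1
  have hlh : ∀ o l, lo o l < hi o l := fun o l => by
    simp only [lo, hi]
    split_ifs <;> linarith
  have hin : ∀ o, ∀ l ∈ o.1, ∀ x ∈ crd d ⁻¹' Set.Icc (lo o) (hi o),
      (o.2 l : ℝ) - 1 / 3 ≤ x l ∧ x l ≤ o.2 l + 1 / 3 := fun o l hl x hx => by
    simpa only [lo, hi, if_pos hl] using mem_bx.1 hx l
  obtain ⟨r, hr⟩ : ∃ r, n = 2 * d + r + A.card * (2 * d + 0) := by
    have := Nat.mul_le_mul_right (2 * d) hcard
    exact ⟨n - 2 * d - A.card * (2 * d), by rw [add_zero]; omega⟩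
  refine ⟨crd d ⁻¹' Set.Icc (fun _ => -2) (fun _ => R + 2) \
    ⋃ o ∈ A, interior (crd d ⁻¹' Set.Icc (lo o) (hi o)), ?_, fun N C hC => ?_⟩
  · rw [hr]
    refine isOrthPolyhedron_diff A _ (fun o => crd d ⁻¹' Set.Icc (lo o) (hi o)) (isCompact_box _ _ _)
      (closure_interior_box _ fun _ => by linarith) (fun o _ => (isCompact_box _ _ _).isClosed)
      (fun o _ => closure_interior_box _ (hlh o)) (fun o ho x hx => ?_)
      (fun o ho o' ho' hne' => ?_) (hasFacesB_box hd (fun _ => by linarith) r)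
      fun o _ => hasFacesB_box hd (hlh o) 0
    · rw [interior_box]
      intro l
      change -2 < x l ∧ x l < R + 2
      by_cases hl : l ∈ o.1
      · have k1 := hin o l hl x hx
        have k2 := ((hA o ho).2.1 l hl).2
        have k3 : (0 : ℝ) ≤ o.2 l := Nat.cast_nonneg _
        constructor <;> linarith [k1.1, k1.2]
      · have k1 := mem_bx.1 hx l
        simp only [lo, hi, if_neg hl] at k1
        constructor <;> linarith [k1.1, k1.2]
    · rw [Set.disjoint_left]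
      intro x hx hx'
      have key : ∀ l ∈ o.1, l ∈ o'.1 → o.2 l = o'.2 l := fun l hl hl' => by
        have k1 := hin o l hl x hx
        have k2 := hin o' l hl' x hx'
        exact near_nat (by linarith [k1.1, k2.2]) (by linarith [k1.2, k2.1])
      obtain ⟨l, hl⟩ := hH _ (hA o ho).1 _ (hA o' ho').1
      obtain ⟨l1, l2⟩ := mem_inter.1 hl
      have e1 : o.1 = o'.1 := heinj _ _ (by
        rw [← ((hA o ho).2.1 l l1).1, ← ((hA o' ho').2.1 l l2).1, key l l1 l2])
      refine hne' (Prod.ext e1 (funext fun c => ?_))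
      by_cases hc : c ∈ o.1
      · exact key c hc (e1 ▸ hc)
      · rw [(hA o ho).2.2 c hc, (hA o' ho').2.2 c (e1 ▸ hc)]
  obtain ⟨c1, -, c3⟩ := hC
  let W : (Fin d → Fin (M + 1)) → E d := fun z => (crd d).symm fun l => 2 * d * κ * (z l : ℕ)
  have hW : ∀ z l, W z l = 2 * d * κ * (z l : ℕ) := fun _ _ => rfl
  have hWP : ∀ z, ∃ k, W z ∈ C k := by
    intro z
    rw [← Set.mem_iUnion, c3]
    refine ⟨mem_bx.2 fun l => ?_, fun hx => ?_⟩
    · have k1 : ((z l : ℕ) : ℝ) ≤ M := by exact_mod_cast Nat.lt_succ_iff.1 (z l).2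
      have k2 := mul_le_mul_of_nonneg_left k1 (show (0 : ℝ) ≤ 2 * d * κ by positivity)
      have k3 : (0 : ℝ) ≤ 2 * d * κ * (z l : ℕ) := by positivity
      rw [hW]
      constructor <;> linarith
    · simp only [Set.mem_iUnion, exists_prop] at hx
      obtain ⟨o, ho, hx⟩ := hx
      obtain ⟨l, hl⟩ := hne _ (hA o ho).1
      have k1 := hin o l hl _ (interior_subset hx)
      rw [hW] at k1
      have k2 : o.2 l = 2 * d * κ * (z l : ℕ) :=
        near_nat (by push_cast; linarith [k1.1]) (by push_cast; linarith [k1.2])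
      have k3 := ((hA o ho).2.1 l hl).1
      rw [k2, mul_right_comm, Nat.mul_mod_left] at k3
      exact Nat.succ_ne_zero _ k3.symm
  have hpiece : ∀ k, ((univ.filter fun z => W z ∈ C k).card : ℝ) * (M : ℝ) ^ φ ≤
      2 ^ d * (M : ℝ) ^ d := by
    intro k
    refine piece hφ hM _ fun S hS p q hpq h1 => ?_
    by_contra h2
    obtain ⟨y, hy, τ, t1, t2⟩ := hY2 S (hne S hS) p q h1 (not_le.1 h2).le
    obtain ⟨V, -, -, hV, -⟩ := c1 k
    have hc : Convex ℝ (C k) := hV ▸ convex_convexHull ℝ V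
    have hs : (0 : ℝ) < S.card := by exact_mod_cast (hne S hS).card_pos
    have hx : ∑ i ∈ S, (1 / S.card : ℝ) • ((1 - τ i) • W (p i) + τ i • W (q i)) ∈ C k :=
      hc.sum_mem (fun _ _ => by positivity) (by rw [sum_const, nsmul_eq_mul]; field_simp)
        fun i _ => hc (mem_filter.1 (hpq i).1).2 (mem_filter.1 (hpq i).2).2
          (by linarith [(t1 i).2]) (t1 i).1 (by ring)
    have hx' := (c3 ▸ Set.subset_iUnion C k) hx
    refine hx'.2 (Set.mem_biUnion (x := g S y)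
      (mem_coe.2 (mem_biUnion.2 ⟨S, hS, mem_image_of_mem _ hy⟩)) ?_)
    rw [interior_box]
    intro l
    have e1 : crd d (∑ i ∈ S, (1 / S.card : ℝ) • ((1 - τ i) • W (p i) + τ i • W (q i))) l =
        pt S (2 * d * κ) p q τ l := by
      simp only [W, map_sum, map_smul, map_add, ContinuousLinearEquiv.apply_symm_apply,
        Finset.sum_apply, Pi.smul_apply, Pi.add_apply, smul_eq_mul, pt, mul_sum]
      exact sum_congr rfl fun i _ => by ring
    rw [e1]
    by_cases hl : l ∈ S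
    · simp only [lo, hi, g, if_pos hl, ← t2 l hl]
      push_cast
      constructor <;> linarith
    · have k1 := pt_mem (hne S hS) (B := 2 * d * κ) (by positivity) p q t1 l
      simp only [lo, hi, g, if_neg hl]
      constructor <;> linarith [k1.1, k1.2]
  have h1 : (univ : Finset (Fin d → Fin (M + 1))).card ≤
      ∑ k, (univ.filter fun z => W z ∈ C k).card := by
    refine le_trans (card_le_card fun z _ => ?_) card_biUnion_le
    obtain ⟨k, hk⟩ := hWP z
    exact mem_biUnion.2 ⟨k, mem_univ _, mem_filter.2 ⟨mem_univ _, hk⟩⟩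
  have h2 : (M : ℝ) ^ d ≤ ∑ k, ((univ.filter fun z => W z ∈ C k).card : ℝ) := by
    rw [card_univ, Fintype.card_fun, Fintype.card_fin, Fintype.card_fin] at h1
    exact_mod_cast (Nat.pow_le_pow_left (Nat.le_succ M) d).trans h1
  have hM0 : (0 : ℝ) < M := by exact_mod_cast (show 0 < M by omega)
  have h3 := mul_le_mul_of_nonneg_right h2 (Real.rpow_nonneg hM0.le φ)
  rw [sum_mul] at h3
  have h4 := h3.trans (sum_le_card_nsmul _ _ _ fun k _ => hpiece k)
  rw [card_univ, Fintype.card_fin, nsmul_eq_mul] at h4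
  refine le_of_mul_le_mul_left ?_ (pow_pos hM0 d)
  linarith

end Pool.Agent.MP_a2955b_co.Orth
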