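import Pool.Agent.MP_a2955b_co.Orth.Lower

/-! The growth exponent for orthogonal polyhedra. -/

set_option autoImplicit false

namespace Pool.Agent.MP_a2955b_co.Orth

open Finset Filter

variable {d : ℕ}

lemma exists_size (hd : 2 ≤ d) {M : ℕ} (hM : 1 ≤ M) : ∃ t : ℕ,
    ((((M + 1) ^ d) ^ d) ^ 2 : ℕ) * (1 - 1 / ((2 * d) ^ d * M : ℝ)) ^ t < 1 ∧
      (t : ℝ) ≤ (2 * d) ^ d * M * (2 * d ^ 2 * Real.log (M + 1) + 1) + 1 := by
  have hd' : (2 : ℝ) ≤ d := by exact_mod_cast hd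
  have hM' : (1 : ℝ) ≤ M := by exact_mod_cast hM
  have h1 : (1 : ℝ) ≤ (2 * d) ^ d * M :=
    one_le_mul_of_one_le_of_one_le (one_le_pow₀ (by linarith)) hM'
  have hL : 0 ≤ Real.log (M + 1) := Real.log_nonneg (by linarith)
  set K : ℝ := (2 * d) ^ d * M
  refine ⟨⌈K * (2 * d ^ 2 * Real.log (M + 1) + 1)⌉₊, ?_,
    (Nat.ceil_lt_add_one (by positivity)).le⟩
  have h2 := Nat.le_ceil (K * (2 * d ^ 2 * Real.log (M + 1) + 1))
  set t := ⌈K * (2 * d ^ 2 * Real.log (M + 1) + 1)⌉₊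
  have h3 : (1 - 1 / K) ^ t ≤ Real.exp (-(1 / K)) ^ t :=
    pow_le_pow_left₀ (sub_nonneg.2 ((div_le_one (by linarith)).2 h1))
      (by linarith [Real.add_one_le_exp (-(1 / K))]) t
  have h4 : (((((M + 1) ^ d) ^ d) ^ 2 : ℕ) : ℝ) = Real.exp (2 * d ^ 2 * Real.log (M + 1)) := by
    rw [show 2 * (d : ℝ) ^ 2 = ((d * d * 2 : ℕ) : ℝ) by push_cast; ring, ← Real.log_pow,
      Real.exp_log (by positivity), pow_mul, pow_mul]
    push_cast
    rfl
  refine lt_of_le_of_lt (mul_le_mul_of_nonneg_left h3 (Nat.cast_nonneg _)) ?_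
  rw [h4, ← Real.exp_nat_mul, ← Real.exp_add, Real.exp_lt_one_iff]
  have h5 : 2 * d ^ 2 * Real.log (M + 1) + 1 ≤ t * (1 / K) := by
    rw [mul_one_div, le_div_iff₀ (by linarith)]
    linarith
  linarith

theorem lower (hd : 2 ≤ d) {H : Finset (Finset (Fin d))} (hH : Intersecting H) {φ ε : ℝ}
    (hφ : ∀ τ : Fin d → ℝ, (∀ i, 0 ≤ τ i) → (∀ S ∈ H, 1 ≤ ∑ i ∈ S, τ i) → φ ≤ ∑ i, τ i)
    (hφ0 : 0 ≤ φ) (hφd : φ ≤ d) (hε : 0 < ε) :
    ∀ᶠ n : ℕ in atTop, ∃ P : Set (E d), IsOrthPolyhedron P n ∧ ∀ (N : ℕ) (C : Fin N → Set (E d)),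
      IsConvexPartition P C → (n : ℝ) ^ (φ - ε) ≤ N := by
  have hd' : (2 : ℝ) ≤ d := by exact_mod_cast hd
  obtain ⟨δ, hδ0, hδ1, hδ2⟩ : ∃ δ : ℝ, 0 < δ ∧ δ ≤ 1 / 2 ∧ δ * d ≤ ε / 2 :=
    ⟨min (1 / 2) (ε / 2 / d), by positivity, min_le_left _ _,
      (le_div_iff₀ (by linarith)).1 (min_le_right _ _)⟩
  have ev : ∀ {s : ℝ}, 0 < s → ∀ K : ℝ, ∀ᶠ n : ℕ in atTop, K ≤ (n : ℝ) ^ s := fun hs K =>
    ((tendsto_rpow_atTop hs).comp tendsto_natCast_atTop_atTop).eventually_ge_atTop K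
  filter_upwards [ev (s := 1 - δ) (by linarith) 2, ev (half_pos hε) (2 ^ d * 2 ^ d),
    ev (half_pos hδ0) (2 * d + 2 ^ d * ((2 * d) ^ d * (2 * d ^ 2 * (1 + 2 / δ) + 1) + 1) * (2 * d)),
    eventually_ge_atTop 1] with n h1 h2 h3 h4
  have hn : (1 : ℝ) ≤ n := by exact_mod_cast h4
  have hn0 : (0 : ℝ) < n := by linarith
  set M := ⌊(n : ℝ) ^ (1 - δ)⌋₊ with hM
  have hM2 : 2 ≤ M := Nat.le_floor (by exact_mod_cast h1)
  have hM2' : (2 : ℝ) ≤ M := by exact_mod_cast hM2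
  have hM1 : (M : ℝ) ≤ (n : ℝ) ^ (1 - δ) := Nat.floor_le (by positivity)
  have hM3 : (n : ℝ) ^ (1 - δ) ≤ 2 * M := by linarith [Nat.lt_floor_add_one ((n : ℝ) ^ (1 - δ))]
  obtain ⟨t, t1, t2⟩ := exists_size hd (show 1 ≤ M by omega)
  have k1 : 1 ≤ (n : ℝ) ^ (δ / 2) := Real.one_le_rpow hn (by linarith)
  have k2 : Real.log (M + 1) ≤ (1 + 2 / δ) * (n : ℝ) ^ (δ / 2) := by
    have a1 : (n : ℝ) ^ (1 - δ) ≤ n := by
      simpa using Real.rpow_le_rpow_of_exponent_le hn (show 1 - δ ≤ 1 by linarith)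
    have a2 : Real.log (M + 1) ≤ Real.log (2 * n) :=
      Real.log_le_log (by linarith) (by linarith)
    rw [Real.log_mul (by norm_num) hn0.ne'] at a2
    have a3 := Real.log_le_sub_one_of_pos (show (0 : ℝ) < 2 by norm_num)
    have a4 := Real.log_le_rpow_div hn0.le (half_pos hδ0)
    have a5 : (n : ℝ) ^ (δ / 2) / (δ / 2) = 2 / δ * (n : ℝ) ^ (δ / 2) := by field_simp
    linarith
  set u := (n : ℝ) ^ (δ / 2)
  set x := (n : ℝ) ^ (1 - δ)
  have k3 : x * u * u = n := by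
    rw [← Real.rpow_add hn0, ← Real.rpow_add hn0, show 1 - δ + δ / 2 + δ / 2 = 1 by ring,
      Real.rpow_one]
  have k4 : 1 ≤ x * u := one_le_mul_of_one_le_of_one_le (by linarith) k1
  have k5 : (t : ℝ) ≤ ((2 * d) ^ d * (2 * d ^ 2 * (1 + 2 / δ) + 1) + 1) * (x * u) := by
    have a1 : 2 * d ^ 2 * Real.log (M + 1) + 1 ≤ (2 * d ^ 2 * (1 + 2 / δ) + 1) * u := by
      have := mul_le_mul_of_nonneg_left k2 (show (0 : ℝ) ≤ 2 * d ^ 2 by positivity)
      linarith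
    have a0 : 0 ≤ Real.log (M + 1) := Real.log_nonneg (by linarith)
    have a2 := mul_le_mul (mul_le_mul_of_nonneg_left hM1 (show (0 : ℝ) ≤ (2 * d) ^ d by positivity))
      a1 (by positivity) (by positivity)
    linarith
  have k6 : 2 * d + 2 ^ d * t * (2 * d) ≤ n := by
    have a1 := mul_le_mul_of_nonneg_left k5 (show (0 : ℝ) ≤ 2 ^ d * (2 * d) by positivity)
    have a2 := mul_le_mul_of_nonneg_left h3 (show 0 ≤ x * u by linarith)
    have a3 := mul_le_mul_of_nonneg_left k4 (show (0 : ℝ) ≤ 2 * d by linarith)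
    have a4 : (2 * d + 2 ^ d * t * (2 * d) : ℝ) ≤ n := by linarith
    exact_mod_cast a4
  obtain ⟨P, hP, hlow⟩ := construct hd hH hφ hM2 t1 k6
  refine ⟨P, hP, fun N C hC => ?_⟩
  have m1 := hlow N C hC
  have m2 : x ^ φ ≤ 2 ^ d * (M : ℝ) ^ φ := by
    refine (Real.rpow_le_rpow (by linarith) hM3 hφ0).trans ?_
    rw [Real.mul_rpow (by norm_num) (by linarith)]
    refine mul_le_mul_of_nonneg_right ?_ (by positivity)
    simpa using Real.rpow_le_rpow_of_exponent_le (show (1 : ℝ) ≤ 2 by norm_num) hφd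
  have m3 : (n : ℝ) ^ (φ - ε) * (n : ℝ) ^ (ε / 2) ≤ x ^ φ := by
    rw [← Real.rpow_add hn0, ← Real.rpow_mul hn0.le]
    refine Real.rpow_le_rpow_of_exponent_le hn ?_
    have := mul_le_mul_of_nonneg_left hφd hδ0.le
    linarith
  have m4 := mul_le_mul_of_nonneg_left h2 (Real.rpow_nonneg hn0.le (φ - ε))
  have m5 := mul_le_mul_of_nonneg_left m1 (show (0 : ℝ) ≤ 2 ^ d by positivity)
  refine le_of_mul_le_mul_left ?_ (show (0 : ℝ) < 2 ^ d * 2 ^ d by positivity)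
  linarith

lemma one_cover {H : Finset (Finset (Fin d))} (hH : Intersecting H) :
    (d : ℝ) ∈ {t | ∃ τ : Fin d → ℝ, (∀ i, 0 ≤ τ i) ∧ (∀ S ∈ H, 1 ≤ ∑ i ∈ S, τ i) ∧
      t = ∑ i, τ i} := by
  refine ⟨fun _ => 1, fun _ => zero_le_one, fun S hS => ?_, by simp⟩
  have : S.Nonempty := by simpa using hH S hS S hS
  simpa using this.card_pos

lemma fracCover_le {H : Finset (Finset (Fin d))} (τ : Fin d → ℝ) (h0 : ∀ i, 0 ≤ τ i)
    (h1 : ∀ S ∈ H, 1 ≤ ∑ i ∈ S, τ i) : fracCover H ≤ ∑ i, τ i :=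
  csInf_le ⟨0, fun _ ⟨_, k, _, e⟩ => e ▸ sum_nonneg fun i _ => k i⟩ ⟨τ, h0, h1, rfl⟩

lemma fracCover_nonneg (H : Finset (Finset (Fin d))) : 0 ≤ fracCover H :=
  Real.sInf_nonneg fun _ ⟨_, k, _, e⟩ => e ▸ sum_nonneg fun i _ => k i

lemma fracCover_le_dim {H : Finset (Finset (Fin d))} (hH : Intersecting H) : fracCover H ≤ d := by
  obtain ⟨τ, h0, h1, e⟩ := one_cover hH
  exact e ▸ fracCover_le τ h0 h1

lemma le_tauStar {H : Finset (Finset (Fin d))} (hH : Intersecting H) : fracCover H ≤ tauStar d :=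
  le_csSup ⟨d, fun _ ⟨_, k, e⟩ => e ▸ fracCover_le_dim k⟩ ⟨H, hH, rfl⟩

lemma intersecting_empty : Intersecting (∅ : Finset (Finset (Fin d))) := by simp [Intersecting]

theorem main (hd : 2 ≤ d) {ε : ℝ} (hε : 0 < ε) :
    (∃ A : ℝ, ∀ (n : ℕ) (P : Set (E d)), 1 ≤ n → IsOrthPolyhedron P n →
      ∃ (M : ℕ) (K : Fin M → Set (E d)), IsConvexPartition P K ∧ (∀ k, IsBox (K k)) ∧
        (M : ℝ) ≤ A * (n : ℝ) ^ (tauStar d + ε)) ∧
    ∃ N : ℕ, ∀ n : ℕ, N ≤ n → ∃ P : Set (E d), IsOrthPolyhedron P n ∧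
      ∀ (M : ℕ) (K : Fin M → Set (E d)), IsConvexPartition P K →
        (n : ℝ) ^ (tauStar d - ε) ≤ M := by
  constructor
  · have h0 : 0 ≤ tauStar d := (fracCover_nonneg _).trans (le_tauStar intersecting_empty)
    have := upper (d := d) (σ := tauStar d + ε / 2) (by omega) (by linarith) (half_pos hε)
      fun H hH => by
        obtain ⟨_, ⟨τ, k0, k1, rfl⟩, k2⟩ := exists_lt_of_csInf_lt ⟨_, one_cover hH⟩
          (show fracCover H < tauStar d + ε / 2 by linarith [le_tauStar hH])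
        exact ⟨τ, k0, k1, k2.le⟩
    rwa [add_assoc, add_halves] at this
  · obtain ⟨_, ⟨H, hH, rfl⟩, h1⟩ := exists_lt_of_lt_csSup
      (s := {t | ∃ H : Finset (Finset (Fin d)), Intersecting H ∧ t = fracCover H})
      ⟨_, ∅, intersecting_empty, rfl⟩ (show tauStar d - ε / 2 < tauStar d by linarith)
    obtain ⟨N, hN⟩ := eventually_atTop.1 (lower hd hH fracCover_le (fracCover_nonneg H)
      (fracCover_le_dim hH) (half_pos hε))
    refine ⟨max N 1, fun n hn => ?_⟩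
    obtain ⟨P, hP, h2⟩ := hN n (le_of_max_le_left hn)
    refine ⟨P, hP, fun M K hK => le_trans ?_ (h2 M K hK)⟩
    exact Real.rpow_le_rpow_of_exponent_le (by exact_mod_cast le_of_max_le_right hn) (by linarith)

/-- The exponent is at most the square root of the dimension. -/
theorem tauStar_le_sqrt (hd : 1 ≤ d) : tauStar d ≤ Real.sqrt d := by
  classical
  have hs : 0 < Real.sqrt d := Real.sqrt_pos.2 (by exact_mod_cast hd)
  refine csSup_le ⟨_, ∅, intersecting_empty, rfl⟩ ?_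
  rintro _ ⟨H, hH, rfl⟩
  by_cases h : ∀ S ∈ H, Real.sqrt d ≤ S.card
  · refine (fracCover_le (fun _ => 1 / Real.sqrt d) (fun _ => by positivity)
      fun S hS => ?_).trans (le_of_eq ?_)
    · rw [sum_const, nsmul_eq_mul, mul_one_div, one_le_div hs]
      exact h S hS
    · rw [sum_const, card_univ, Fintype.card_fin, nsmul_eq_mul, mul_one_div, Real.div_sqrt]
  · push Not at h
    obtain ⟨T, hT, h⟩ := h
    refine (fracCover_le (fun i => if i ∈ T then 1 else 0) (fun i => by split_ifs <;> norm_num)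
      fun S hS => ?_).trans ?_
    · simpa using (hH S hS T hT).card_pos
    · simpa using h.le

end Pool.Agent.MP_a2955b_co.Orth
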