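import Pool.Agent.MP_a2955b_co.Orth.Cuts

/-! The recursion for the upper bound. -/

set_option autoImplicit false

namespace Pool.Agent.MP_a2955b_co.Orth

open Finset Function

variable {d : ℕ} {J : Type} [Fintype J] (lo hi : J → Fin d → ℝ)

/-- The closed box number `j` meets the open box with corners `a`, `b`. -/
def Meets (j : J) (a b : Fin d → ℝ) : Prop := ∀ c, a c < hi j c ∧ lo j c < b c

/-- The box number `j` has an end point in direction `c` between `s` and `t`. -/
def End (j : J) (c : Fin d) (s t : ℝ) : Prop :=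
  (s < lo j c ∧ lo j c < t) ∨ (s < hi j c ∧ hi j c < t)

open Classical in
/-- The directions in which the box number `j` ends inside the cell. -/
noncomputable def ty (j : J) (a b : Fin d → ℝ) : Finset (Fin d) :=
  univ.filter fun c => End lo hi j c (a c) (b c)

open Classical in
/-- The boxes of type `S` in the first cell that still end inside the second cell in the
directions of `S` outside `R`. -/
noncomputable def keep (a₀ b₀ : Fin d → ℝ) (R S : Finset (Fin d)) (a b : Fin d → ℝ) : Finset J :=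
  univ.filter fun j => (Meets lo hi j a₀ b₀ ∧ ty lo hi j a₀ b₀ = S) ∧
    ∀ i ∈ S, i ∉ R → End lo hi j i (a i) (b i)

lemma round {ok : (Fin d → ℝ) → (Fin d → ℝ) → Prop} (a₀ b₀ : Fin d → ℝ) (ρ : Fin d → ℝ)
    (hρ : ∀ i, 1 ≤ ρ i) (μ : Finset (Fin d) → ℝ) {m : ℝ} (hm : 0 ≤ m)
    (H : ∀ a b : Fin d → ℝ, (∀ c, a₀ c ≤ a c ∧ a c < b c ∧ b c ≤ b₀ c) →
      (∀ S, ((keep lo hi a₀ b₀ ∅ S a b).card : ℝ) ≤ μ S * ∏ i ∈ S, 2 / ρ i) → Cuts ok a b m)
    (R : Finset (Fin d)) : ∀ a b : Fin d → ℝ, (∀ c, a₀ c ≤ a c ∧ a c < b c ∧ b c ≤ b₀ c) →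
      (∀ S, ((keep lo hi a₀ b₀ R S a b).card : ℝ) ≤ μ S * ∏ i ∈ S \ R, 2 / ρ i) →
      Cuts ok a b ((∏ i ∈ R, (2 ^ (d + 2) * ρ i)) * m) := by
  classical
  induction R using Finset.induction_on with
  | empty =>
    intro a b h1 h2
    simpa using H a b h1 (by simpa using h2)
  | insert i R hi' ih =>
    intro a b h1 h2
    have hρ0 : 0 < ρ i := by linarith [hρ i]
    choose X hX1 hX2 using fun S => quantile (fun j => lo j i) hρ0 (keep lo hi a₀ b₀ (insert i R) S a b)
    choose Y hY1 hY2 using fun S => quantile (fun j => hi j i) hρ0 (keep lo hi a₀ b₀ (insert i R) S a b)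
    have hP : 0 ≤ (∏ i ∈ R, (2 ^ (d + 2) * ρ i)) * m :=
      mul_nonneg (prod_nonneg fun c _ => by have := hρ c; positivity) hm
    have hc : (((univ : Finset (Finset (Fin d))).biUnion fun S => X S ∪ Y S).card : ℝ) ≤
        2 ^ d * (2 * ρ i) := by
      calc (((univ : Finset (Finset (Fin d))).biUnion fun S => X S ∪ Y S).card : ℝ)
          ≤ ∑ S : Finset (Fin d), ((X S ∪ Y S).card : ℝ) := by exact_mod_cast card_biUnion_le
        _ ≤ ∑ _S : Finset (Fin d), 2 * ρ i := sum_le_sum fun S _ => by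
            have : ((X S ∪ Y S).card : ℝ) ≤ (X S).card + (Y S).card := by
              exact_mod_cast card_union_le _ _
            linarith [hX1 S, hY1 S]
        _ = _ := by simp
    refine (cuts_multi i (univ.biUnion fun S => X S ∪ Y S) a hP b (h1 i).2.1 ?_).mono ?_
    · intro s t hs hst ht hfree
      refine ih _ _ (fun c => ?_) fun S => ?_
      · by_cases e : c = i
        · subst e
          simp only [update_self]
          exact ⟨(h1 c).1.trans hs, hst, ht.trans (h1 c).2.2⟩
        · simpa only [update_of_ne e] using h1 c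
      have hsub : keep lo hi a₀ b₀ R S (update a i s) (update b i t) ⊆
          keep lo hi a₀ b₀ (insert i R) S a b := by
        intro j hj
        obtain ⟨-, k1, k2⟩ := mem_filter.1 hj
        refine mem_filter.2 ⟨mem_univ _, k1, fun c hc hc' => ?_⟩
        rw [mem_insert, not_or] at hc'
        simpa only [update_of_ne hc'.1] using k2 c hc hc'.2
      by_cases hS : i ∈ S
      · have e : S \ R = insert i (S \ insert i R) := by
          ext c
          simp only [mem_sdiff, mem_insert]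
          by_cases e : c = i
          · subst e; simp [hS, hi']
          · simp [e]
        have k1 := hX2 S s t fun x hx => hfree x
          (mem_biUnion.2 ⟨S, mem_univ _, mem_union_left _ hx⟩)
        have k2 := hY2 S s t fun x hx => hfree x
          (mem_biUnion.2 ⟨S, mem_univ _, mem_union_right _ hx⟩)
        have k3 : keep lo hi a₀ b₀ R S (update a i s) (update b i t) ⊆
            ((keep lo hi a₀ b₀ (insert i R) S a b).filter fun j => s < lo j i ∧ lo j i < t) ∪
            ((keep lo hi a₀ b₀ (insert i R) S a b).filter fun j => s < hi j i ∧ hi j i < t) := by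
          intro j hj
          have k4 := (mem_filter.1 hj).2.2 i hS hi'
          simp only [update_self] at k4
          rcases k4 with k4 | k4
          · exact mem_union_left _ (mem_filter.2 ⟨hsub hj, k4⟩)
          · exact mem_union_right _ (mem_filter.2 ⟨hsub hj, k4⟩)
        have k5 := (card_le_card k3).trans (card_union_le _ _)
        have k6 := (Nat.cast_le (α := ℝ)).2 k5
        rw [Nat.cast_add] at k6
        rw [e, prod_insert (by simp)]
        have k7 := div_le_div_of_nonneg_right (h2 S) hρ0.le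
        calc _ ≤ 2 * ((μ S * ∏ i ∈ S \ insert i R, 2 / ρ i) / ρ i) := by linarith
          _ = _ := by ring
      · have e : S \ R = S \ insert i R := by
          ext c
          simp only [mem_sdiff, mem_insert]
          by_cases e : c = i
          · subst e; simp [hS]
          · simp [e]
        rw [e]
        exact le_trans (by exact_mod_cast card_le_card hsub) (h2 S)
    · rw [prod_insert hi', mul_assoc]
      refine mul_le_mul_of_nonneg_right ?_ hP
      have h3 : (1 : ℝ) ≤ 2 ^ d := one_le_pow₀ (by norm_num)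
      have h4 := mul_le_mul h3 (hρ i) zero_le_one (by linarith)
      rw [pow_add]
      linarith

open Classical in
/-- The potential of a cell. -/
noncomputable def pot (r : ℝ) (a b : Fin d → ℝ) : ℝ :=
  ∑ j ∈ univ.filter fun j => Meets lo hi j a b, r ^ (ty lo hi j a b).card

lemma pot_drop {r : ℝ} (hr : 1 ≤ r) {a₀ b₀ a b : Fin d → ℝ}
    (h : ∀ c, a₀ c ≤ a c ∧ a c < b c ∧ b c ≤ b₀ c)
    (hk : ∀ S, ((keep lo hi a₀ b₀ ∅ S a b).card : ℝ) ≤
      (keep lo hi a₀ b₀ univ S a₀ b₀).card * (2 ^ d / r)) :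
    pot lo hi r a b ≤ (2 ^ d + 1) / r * pot lo hi r a₀ b₀ := by
  classical
  have hr0 : 0 < r := by linarith
  set G := univ.filter fun j => Meets lo hi j a₀ b₀ with hG
  have hsub : ∀ j, ty lo hi j a b ⊆ ty lo hi j a₀ b₀ := fun j c hc => by
    refine mem_filter.2 ⟨mem_univ _, ?_⟩
    rcases (mem_filter.1 hc).2 with e | e
    · exact Or.inl ⟨(h c).1.trans_lt e.1, e.2.trans_le (h c).2.2⟩
    · exact Or.inr ⟨(h c).1.trans_lt e.1, e.2.trans_le (h c).2.2⟩
  have h1 : pot lo hi r a b ≤ ∑ j ∈ G, r ^ (ty lo hi j a b).card := by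
    refine sum_le_sum_of_subset_of_nonneg (fun j hj => mem_filter.2 ⟨mem_univ _, fun c => ?_⟩)
      fun _ _ _ => by positivity
    have := (mem_filter.1 hj).2 c
    exact ⟨(h c).1.trans_lt this.1, this.2.trans_le (h c).2.2⟩
  have h2 : ∀ j ∈ G, r ^ (ty lo hi j a b).card ≤
      (if j ∈ keep lo hi a₀ b₀ ∅ (ty lo hi j a₀ b₀) a b then r ^ (ty lo hi j a₀ b₀).card else 0) +
        r ^ (ty lo hi j a₀ b₀).card / r := by
    intro j hj
    split_ifs with e
    · have := pow_le_pow_right₀ hr (card_le_card (hsub j))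
      have : 0 ≤ r ^ (ty lo hi j a₀ b₀).card / r := by positivity
      linarith
    · have e1 : ty lo hi j a b ≠ ty lo hi j a₀ b₀ := fun e1 => e (mem_filter.2 ⟨mem_univ _,
        ⟨(mem_filter.1 hj).2, rfl⟩, fun c hc _ => (mem_filter.1 (e1 ▸ hc : c ∈ ty lo hi j a b)).2⟩)
      have e2 := card_lt_card (Finset.ssubset_iff_subset_ne.2 ⟨hsub j, e1⟩)
      rw [zero_add, le_div_iff₀ hr0, ← pow_succ]
      exact pow_le_pow_right₀ hr e2
  have h3 : ∀ S, G.filter (fun j => ty lo hi j a₀ b₀ = S) = keep lo hi a₀ b₀ univ S a₀ b₀ := by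
    intro S
    ext j
    simp [hG, keep]
  have h4 : pot lo hi r a₀ b₀ =
      ∑ S : Finset (Fin d), (keep lo hi a₀ b₀ univ S a₀ b₀).card * r ^ S.card := by
    rw [pot, ← sum_fiberwise (s := G) (g := fun j => ty lo hi j a₀ b₀)]
    refine sum_congr rfl fun S _ => ?_
    rw [sum_congr rfl (g := fun _ => r ^ S.card) fun j hj => by rw [(mem_filter.1 hj).2],
      sum_const, h3, nsmul_eq_mul]
  have h5 : ∑ j ∈ G, (if j ∈ keep lo hi a₀ b₀ ∅ (ty lo hi j a₀ b₀) a b then
      r ^ (ty lo hi j a₀ b₀).card else 0) ≤ 2 ^ d / r * pot lo hi r a₀ b₀ := by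
    rw [h4, mul_sum, ← sum_fiberwise (s := G) (g := fun j => ty lo hi j a₀ b₀)]
    refine sum_le_sum fun S _ => ?_
    rw [sum_congr rfl (g := fun j => if j ∈ keep lo hi a₀ b₀ ∅ S a b then r ^ S.card else 0)
      fun j hj => by rw [(mem_filter.1 hj).2], sum_ite_mem, sum_const, nsmul_eq_mul]
    have k1 : (((G.filter fun j => ty lo hi j a₀ b₀ = S) ∩ keep lo hi a₀ b₀ ∅ S a b).card : ℝ) ≤
        (keep lo hi a₀ b₀ ∅ S a b).card := by exact_mod_cast card_le_card inter_subset_right
    calc _ ≤ ((keep lo hi a₀ b₀ univ S a₀ b₀).card * (2 ^ d / r)) * r ^ S.card :=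
          mul_le_mul_of_nonneg_right (k1.trans (hk S)) (by positivity)
      _ = _ := by ring
  have h6 := sum_le_sum h2
  rw [sum_add_distrib, ← sum_div] at h6
  have h7 : ∑ j ∈ G, r ^ (ty lo hi j a₀ b₀).card = pot lo hi r a₀ b₀ := rfl
  rw [h7] at h6
  calc _ ≤ 2 ^ d / r * pot lo hi r a₀ b₀ + pot lo hi r a₀ b₀ / r := by linarith
    _ = _ := by ring

theorem cuts_of_pot {r σ : ℝ} (hr : 1 ≤ r)
    (hσ : ∀ H : Finset (Finset (Fin d)), Intersecting H → ∃ τ : Fin d → ℝ, (∀ i, 0 ≤ τ i) ∧
      (∀ S ∈ H, 1 ≤ ∑ i ∈ S, τ i) ∧ ∑ i, τ i ≤ σ)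
    (hI : ∀ a b : Fin d → ℝ, (∀ c, a c < b c) → ∀ j j', Meets lo hi j a b → Meets lo hi j' a b →
      (ty lo hi j a b ∩ ty lo hi j' a b).Nonempty) (L : ℕ) :
    ∀ a b : Fin d → ℝ, (∀ c, a c < b c) → pot lo hi r a b < (r / (2 ^ d + 1)) ^ L →
      Cuts (fun a b => ∀ j, ¬ Meets lo hi j a b) a b (((2 ^ (d + 2)) ^ d * r ^ σ) ^ L) := by
  classical
  have hr0 : 0 < r := by linarith
  induction L with
  | zero =>
    intro a b _ h
    refine .leaf (fun j hj => ?_) (by simp)
    have h1 : r ^ (ty lo hi j a b).card ≤ pot lo hi r a b :=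
      single_le_sum (f := fun j => r ^ (ty lo hi j a b).card) (fun _ _ => by positivity)
        (mem_filter.2 ⟨mem_univ _, hj⟩)
    have h2 : 1 ≤ r ^ (ty lo hi j a b).card := one_le_pow₀ hr
    rw [pow_zero] at h
    linarith
  | succ L ih =>
    intro a₀ b₀ hab h
    obtain ⟨τ, t1, t2, t3⟩ := hσ ((univ.filter fun j => Meets lo hi j a₀ b₀).image
      fun j => ty lo hi j a₀ b₀) (by
        intro S hS T hT
        obtain ⟨j, hj, rfl⟩ := mem_image.1 hS
        obtain ⟨j', hj', rfl⟩ := mem_image.1 hT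
        exact hI a₀ b₀ hab j j' (mem_filter.1 hj).2 (mem_filter.1 hj').2)
    have hprod : ∀ S : Finset (Fin d), ∏ i ∈ S, r ^ τ i = r ^ ∑ i ∈ S, τ i := fun S =>
      (Real.rpow_sum_of_pos hr0 _ _).symm
    have hm : 0 ≤ ((2 ^ (d + 2)) ^ d * r ^ σ) ^ L := by positivity
    refine (round lo hi a₀ b₀ (fun i => r ^ τ i) (fun i => Real.one_le_rpow hr (t1 i))
      (fun S => (keep lo hi a₀ b₀ univ S a₀ b₀).card) hm (fun a b h1 h2 => ?_) univ a₀ b₀
      (fun c => ⟨le_rfl, hab c, le_rfl⟩) (fun S => by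
        rw [sdiff_eq_empty_iff_subset.2 (subset_univ S), prod_empty, mul_one])).mono ?_
    · refine ih a b (fun c => (h1 c).2.1) (lt_of_le_of_lt (pot_drop lo hi hr h1 fun S => ?_) ?_)
      · refine (h2 S).trans ?_
        rcases (keep lo hi a₀ b₀ univ S a₀ b₀).eq_empty_or_nonempty with e | ⟨j, hj⟩
        · simp [e]
        obtain ⟨-, ⟨k1, k2⟩, -⟩ := mem_filter.1 hj
        have k3 := t2 S (mem_image.2 ⟨j, mem_filter.2 ⟨mem_univ _, k1⟩, k2⟩)
        refine mul_le_mul_of_nonneg_left ?_ (Nat.cast_nonneg _)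
        rw [prod_div_distrib, prod_const, hprod]
        refine div_le_div₀ (by positivity) (pow_le_pow_right₀ (by norm_num) ?_) hr0 ?_
        · simpa using card_le_univ S
        · simpa using Real.rpow_le_rpow_of_exponent_le hr k3
      · calc _ < (2 ^ d + 1) / r * (r / (2 ^ d + 1)) ^ (L + 1) :=
              mul_lt_mul_of_pos_left h (by positivity)
          _ = _ := by rw [pow_succ]; field_simp
    · rw [pow_succ' _ L]
      refine mul_le_mul_of_nonneg_right ?_ hm
      rw [prod_mul_distrib, prod_const, hprod, card_univ, Fintype.card_fin]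
      exact mul_le_mul_of_nonneg_left (Real.rpow_le_rpow_of_exponent_le hr t3) (by positivity)

end Pool.Agent.MP_a2955b_co.Orth
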