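import Pool.Agent.MP_a2955b_co.Orth.Round
import Pool.Agent.MP_a2955b_co.Boxes

/-! The upper bound for orthogonal polyhedra. -/

set_option autoImplicit false

namespace Pool.Agent.MP_a2955b_co.Orth

open Set

variable {d : ℕ}

/-- coordinates -/
noncomputable abbrev crd (d : ℕ) : E d ≃L[ℝ] (Fin d → ℝ) := EuclideanSpace.equiv (Fin d) ℝ

lemma mem_bx {lo hi : Fin d → ℝ} {x : E d} :
    x ∈ crd d ⁻¹' Icc lo hi ↔ ∀ i, lo i ≤ x i ∧ x i ≤ hi i :=
  ⟨fun h i => ⟨h.1 i, h.2 i⟩, fun h => ⟨fun i => (h i).1, fun i => (h i).2⟩⟩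

lemma isBox_iff {C : Set (E d)} : IsBox C ↔ ∃ lo hi : Fin d → ℝ, C = crd d ⁻¹' Icc lo hi :=
  exists₂_congr fun _ _ => by
    constructor <;> rintro rfl <;> ext x
    · exact mem_bx.symm
    · exact mem_bx

lemma finrank_bx {lo hi : Fin d → ℝ} (h : ∀ c, lo c < hi c) :
    Module.finrank ℝ (vectorSpan ℝ (crd d ⁻¹' Icc lo hi)) = d := by
  have h1 : (interior (crd d ⁻¹' Icc lo hi)).Nonempty := by
    rw [interior_box]
    refine ⟨(crd d).symm fun c => (lo c + hi c) / 2, fun c => ?_⟩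
    have := h c
    simp only [ContinuousLinearEquiv.apply_symm_apply]
    constructor <;> linarith
  have h2 := affineSpan_eq_top_of_nonempty_interior
    (h1.mono (interior_mono (subset_convexHull ℝ _)))
  rw [← direction_affineSpan, h2, AffineSubspace.direction_top, finrank_top,
    finrank_euclideanSpace_fin]

lemma isPolytope_bx {lo hi : Fin d → ℝ} (h : ∀ c, lo c < hi c) :
    IsPolytope d (crd d ⁻¹' Icc lo hi) :=
  ⟨_, (Set.Finite.pi fun c => toFinite ({lo c, hi c} : Set ℝ)).image _,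
    ⟨(crd d).symm lo, lo, fun c _ => by simp, rfl⟩, box_eq_convexHull _ fun c => (h c).le,
    finrank_bx h⟩

lemma notMem_frontier {lo hi : Fin d → ℝ} {x : E d}
    (h : ∀ c, (lo c < x c ∧ x c < hi c) ∨ (lo c = x c ∧ x c = hi c)) :
    x ∉ intrinsicFrontier ℝ (crd d ⁻¹' Icc lo hi) := by
  have hx : x ∈ crd d ⁻¹' Icc lo hi := mem_bx.2 fun c => by
    rcases h c with e | e
    · exact ⟨e.1.le, e.2.le⟩
    · exact ⟨e.1.le, e.2.le⟩
  rw [← intrinsicClosure_sdiff_intrinsicInterior]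
  refine fun hf => hf.2 (mem_intrinsicInterior.2 ⟨⟨x, mem_affineSpan ℝ hx⟩, ?_, rfl⟩)
  refine mem_interior.2 ⟨⋂ c, {y | lo c < hi c → lo c < (y : E d) c ∧ (y : E d) c < hi c},
    fun y hy => mem_bx.2 fun c => ?_, isOpen_iInter_of_finite fun c => ?_,
    mem_iInter.2 fun c hc => ?_⟩
  · by_cases e : lo c < hi c
    · have := mem_iInter.1 hy c e
      exact ⟨this.1.le, this.2.le⟩
    · have e1 : lo c = hi c := le_antisymm (((mem_bx.1 hx) c).1.trans ((mem_bx.1 hx) c).2)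
        (not_lt.1 e)
      have e2 : (y : E d) c = lo c := by
        refine affineSpan_induction (p := fun z : E d => z c = lo c) y.2 (fun z hz => ?_)
          fun t u v w hu hv hw => ?_
        · exact le_antisymm (e1 ▸ ((mem_bx.1 hz) c).2) ((mem_bx.1 hz) c).1
        · simp [hu, hv, hw]
      exact ⟨e2.ge, e2.le.trans e1.le⟩
  · by_cases e : lo c < hi c
    · simp only [e, true_imp_iff]
      have hc : Continuous fun y : affineSpan ℝ (crd d ⁻¹' Icc lo hi) => (y : E d) c := by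
        fun_prop
      exact (isOpen_lt continuous_const hc).inter (isOpen_lt hc continuous_const)
    · simp [e]
  · rcases h c with e | e
    · exact e
    · exact absurd hc (not_lt.2 (e.1.trans e.2).ge)

lemma exists_mid {a b l h : ℝ} (h1 : a < b) (h2 : l ≤ h) (h3 : a < h) (h4 : l < b) :
    ∃ x, (a < x ∧ x < b) ∧ ((l < x ∧ x < h) ∨ (l = x ∧ x = h)) := by
  rcases h2.lt_or_eq with e | e
  · obtain ⟨x, k1, k2⟩ := exists_between
      (show max a l < min b h from max_lt (lt_min h1 h3) (lt_min h4 e))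
    rw [max_lt_iff] at k1
    rw [lt_min_iff] at k2
    exact ⟨x, ⟨k1.1, k2.1⟩, Or.inl ⟨k1.2, k2.2⟩⟩
  · exact ⟨l, ⟨e ▸ h3, h4⟩, Or.inr ⟨rfl, e⟩⟩

lemma types_meet {J : Type} (lo hi : J → Fin d → ℝ) (hle : ∀ j c, lo j c ≤ hi j c)
    (hdeg : ∀ j, ∃ c, lo j c = hi j c)
    (hdis : ∀ j j', j ≠ j' → crd d ⁻¹' Icc (lo j) (hi j) ∩ crd d ⁻¹' Icc (lo j') (hi j') ⊆
      intrinsicFrontier ℝ (crd d ⁻¹' Icc (lo j) (hi j)))
    (a b : Fin d → ℝ) (hab : ∀ c, a c < b c) (j j' : J) (hj : Meets lo hi j a b)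
    (hj' : Meets lo hi j' a b) : (ty lo hi j a b ∩ ty lo hi j' a b).Nonempty := by
  classical
  by_cases e : j = j'
  · subst e
    obtain ⟨c, hc⟩ := hdeg j
    refine ⟨c, ?_⟩
    rw [Finset.inter_self]
    exact Finset.mem_filter.2 ⟨Finset.mem_univ _, Or.inl ⟨hc ▸ (hj c).1, (hj c).2⟩⟩
  by_contra hne
  have span : ∀ k c, Meets lo hi k a b → c ∉ ty lo hi k a b → ∀ x, a c < x ∧ x < b c →
      (lo k c < x ∧ x < hi k c) ∨ (lo k c = x ∧ x = hi k c) := by
    intro k c hk hc x hx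
    have h1 : ¬ End lo hi k c (a c) (b c) := fun h =>
      hc (Finset.mem_filter.2 ⟨Finset.mem_univ _, h⟩)
    exact Or.inl ⟨(not_lt.1 fun h => h1 (Or.inl ⟨h, (hk c).2⟩)).trans_lt hx.1,
      hx.2.trans_le (not_lt.1 fun h => h1 (Or.inr ⟨(hk c).1, h⟩))⟩
  have key : ∀ c, ∃ x, ((lo j c < x ∧ x < hi j c) ∨ (lo j c = x ∧ x = hi j c)) ∧
      ((lo j' c < x ∧ x < hi j' c) ∨ (lo j' c = x ∧ x = hi j' c)) := by
    intro c
    by_cases hc : c ∈ ty lo hi j a b
    · obtain ⟨x, h1, h2⟩ := exists_mid (hab c) (hle j c) (hj c).1 (hj c).2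
      exact ⟨x, h2, span j' c hj' (fun h => hne ⟨c, Finset.mem_inter.2 ⟨hc, h⟩⟩) x h1⟩
    · obtain ⟨x, h1, h2⟩ := exists_mid (hab c) (hle j' c) (hj' c).1 (hj' c).2
      exact ⟨x, span j c hj hc x h1, h2⟩
  choose x hx hx' using key
  refine notMem_frontier (x := (crd d).symm x) hx (hdis j j' e ⟨mem_bx.2 fun c => ?_,
    mem_bx.2 fun c => ?_⟩)
  · rcases hx c with h | h
    · exact ⟨h.1.le, h.2.le⟩
    · exact ⟨h.1.le, h.2.le⟩
  · rcases hx' c with h | h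
    · exact ⟨h.1.le, h.2.le⟩
    · exact ⟨h.1.le, h.2.le⟩

/-- From a tiling by boxes that miss the boundary to a convex partition. -/
lemma partition_of_tiles {P : Set (E d)} (hP : closure (interior P) = P)
    (L : Finset ((Fin d → ℝ) × (Fin d → ℝ))) (h1 : ∀ q ∈ L, ∀ c, q.1 c < q.2 c)
    (h2 : ∀ q ∈ L, ∀ x ∈ frontier P, ¬ ∀ c, q.1 c < x c ∧ x c < q.2 c)
    (h3 : ∀ q ∈ L, ∀ q' ∈ L, q ≠ q' → ∃ c, q.2 c ≤ q'.1 c ∨ q'.2 c ≤ q.1 c)
    (h4 : ∀ x ∈ P, ∃ q ∈ L, ∀ c, q.1 c ≤ x c ∧ x c ≤ q.2 c) :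
    ∃ (M : ℕ) (K : Fin M → Set (E d)), IsConvexPartition P K ∧ (∀ k, IsBox (K k)) ∧
      M ≤ L.card := by
  classical
  let L' := L.filter fun q => interior (crd d ⁻¹' Icc q.1 q.2) ⊆ interior P
  let e := L'.equivFin.symm
  have he : ∀ k, (e k).1 ∈ L ∧ interior (crd d ⁻¹' Icc (e k).1.1 (e k).1.2) ⊆ interior P :=
    fun k => Finset.mem_filter.1 (e k).2
  refine ⟨L'.card, fun k => crd d ⁻¹' Icc (e k).1.1 (e k).1.2,
    ⟨fun k => isPolytope_bx (h1 _ (he k).1), fun k k' hk => ?_, subset_antisymm ?_ ?_⟩,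
    fun k => isBox_iff.2 ⟨_, _, rfl⟩, Finset.card_filter_le _ _⟩
  · obtain ⟨c, hc⟩ := h3 _ (he k).1 _ (he k').1 fun h => hk (e.injective (Subtype.ext h))
    rw [interior_box, interior_box, Set.disjoint_left]
    intro x hx hx'
    have k1 := hx c
    have k2 := hx' c
    rcases hc with hc | hc <;> linarith [k1.1, k1.2, k2.1, k2.2]
  · refine iUnion_subset fun k => ?_
    rw [← closure_interior_box _ (h1 _ (he k).1), ← hP]
    exact closure_mono (he k).2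
  · rw [← hP]
    refine (isClosed_iUnion_of_finite fun k => (isCompact_box _ _ _).isClosed).closure_subset_iff.2
      fun x hx => ?_
    obtain ⟨q, hq, hx'⟩ := h4 x (interior_subset hx)
    have k1 : x ∈ closure (interior (crd d ⁻¹' Icc q.1 q.2)) := by
      rw [closure_interior_box _ (h1 q hq)]
      exact mem_bx.2 hx'
    have k2 : (interior (crd d ⁻¹' Icc q.1 q.2) ∩ interior P).Nonempty := by
      rw [inter_comm]
      exact mem_closure_iff.1 k1 _ isOpen_interior hx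
    have k3 : Convex ℝ (crd d ⁻¹' Icc q.1 q.2) :=
      (convex_Icc q.1 q.2).linear_preimage (crd d : E d →ₗ[ℝ] (Fin d → ℝ))
    have k4 : interior (crd d ⁻¹' Icc q.1 q.2) ⊆ interior P := by
      refine k3.interior.isPreconnected.subset_left_of_subset_union isOpen_interior
        (isOpen_interior (s := Pᶜ))
        (disjoint_compl_right.mono interior_subset interior_subset) ?_ k2
      rw [← compl_frontier_eq_union_interior, interior_box]
      exact fun y hy hy' => h2 q hq y hy' hy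
    exact mem_iUnion.2 ⟨e.symm ⟨q, Finset.mem_filter.2 ⟨hq, k4⟩⟩, by
      rw [Equiv.apply_symm_apply]; exact mem_bx.2 hx'⟩

lemma upper_aux (hd : 1 ≤ d) {r σ : ℝ} (hr : 1 ≤ r)
    (hσ : ∀ H : Finset (Finset (Fin d)), Intersecting H → ∃ τ : Fin d → ℝ, (∀ i, 0 ≤ τ i) ∧
      (∀ S ∈ H, 1 ≤ ∑ i ∈ S, τ i) ∧ ∑ i, τ i ≤ σ) {P : Set (E d)} {n : ℕ}
    (hP : IsOrthPolyhedron P n) (L : ℕ) (hL : r ^ d * n < (r / (2 ^ d + 1)) ^ L) :
    ∃ (M : ℕ) (K : Fin M → Set (E d)), IsConvexPartition P K ∧ (∀ k, IsBox (K k)) ∧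
      (M : ℝ) ≤ ((2 ^ (d + 2)) ^ d * r ^ σ) ^ L := by
  classical
  obtain ⟨hc, hcl, F, hF, hfr, hdis⟩ := hP
  choose lo hi hbox using fun j => isBox_iff.1 (hF j).2
  have hle : ∀ j c, lo j c ≤ hi j c := fun j c => by
    obtain ⟨V, -, ⟨x, hx⟩, hV, -⟩ := (hF j).1
    have h1 : x ∈ F j := hV ▸ subset_convexHull ℝ V hx
    rw [hbox, mem_bx] at h1
    exact (h1 c).1.trans (h1 c).2
  have hdeg : ∀ j, ∃ c, lo j c = hi j c := fun j => by
    by_contra h
    push Not at h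
    obtain ⟨V, -, -, -, h1⟩ := (hF j).1
    rw [hbox, finrank_bx fun c => lt_of_le_of_ne (hle j c) (h c)] at h1
    omega
  obtain ⟨R, hR0, hR⟩ := hc.isBounded.exists_pos_norm_le
  have hcut := cuts_of_pot lo hi hr hσ (types_meet lo hi hle hdeg fun j j' e => by
    rw [← hbox, ← hbox]
    exact (hdis j j' e).trans inter_subset_left) L (fun _ => -R) (fun _ => R)
    (fun _ => by linarith) (lt_of_le_of_lt ?_ hL)
  · obtain ⟨T, t1, t2, t3, t4⟩ := hcut.tiles fun _ => by linarith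
    obtain ⟨M, K, hK, hB, hM⟩ := partition_of_tiles hcl T (fun q hq c => ((t2 q hq).2 c).2.1)
      (fun q hq x hx hx' => by
        rw [hfr] at hx
        obtain ⟨j, hj⟩ := mem_iUnion.1 hx
        rw [hbox, mem_bx] at hj
        exact (t2 q hq).1 j fun c => ⟨(hx' c).1.trans_le (hj c).2, (hj c).1.trans_lt (hx' c).2⟩)
      t3 fun x hx => t4 (fun c => x c) fun c =>
        abs_le.1 ((PiLp.norm_apply_le x c).trans (hR x hx))
    exact ⟨M, K, hK, hB, le_trans (by exact_mod_cast hM) t1⟩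
  · refine le_trans (Finset.sum_le_card_nsmul _ _ (r ^ d) fun j _ =>
      pow_le_pow_right₀ hr (by simpa using Finset.card_le_univ (ty lo hi j _ _))) ?_
    rw [nsmul_eq_mul, mul_comm]
    refine mul_le_mul_of_nonneg_left ?_ (by positivity)
    exact_mod_cast (Finset.card_le_univ _).trans (Fintype.card_fin n).le

theorem upper (hd : 1 ≤ d) {σ ε : ℝ} (hσ0 : 0 ≤ σ) (hε : 0 < ε)
    (hσ : ∀ H : Finset (Finset (Fin d)), Intersecting H → ∃ τ : Fin d → ℝ, (∀ i, 0 ≤ τ i) ∧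
      (∀ S ∈ H, 1 ≤ ∑ i ∈ S, τ i) ∧ ∑ i, τ i ≤ σ) :
    ∃ A : ℝ, ∀ (n : ℕ) (P : Set (E d)), 1 ≤ n → IsOrthPolyhedron P n →
      ∃ (M : ℕ) (K : Fin M → Set (E d)), IsConvexPartition P K ∧ (∀ k, IsBox (K k)) ∧
        (M : ℝ) ≤ A * (n : ℝ) ^ (σ + ε) := by
  obtain ⟨r, hr1, hr2⟩ := ((Filter.eventually_gt_atTop ((2 : ℝ) ^ d + 1)).and
    ((tendsto_rpow_atTop hε).eventually_ge_atTop
      ((2 ^ (d + 2)) ^ d * ((2 : ℝ) ^ d + 1) ^ (σ + ε)))).exists
  have h0 : (0 : ℝ) < 2 ^ d + 1 := by positivity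
  have hr : 1 ≤ r := by linarith [show (0 : ℝ) < 2 ^ d by positivity]
  have hβ : 1 < r / (2 ^ d + 1) := (one_lt_div h0).2 hr1
  refine ⟨(r / (2 ^ d + 1) * r ^ d) ^ (σ + ε), fun n P hn hP => ?_⟩
  have hn' : (1 : ℝ) ≤ n := by exact_mod_cast hn
  obtain ⟨L, h1, h2⟩ := exists_nat_pow_near
    (one_le_mul_of_one_le_of_one_le (one_le_pow₀ hr (n := d)) hn') hβ
  obtain ⟨M, K, hK, hB, hM⟩ := upper_aux hd hr hσ hP (L + 1) h2
  refine ⟨M, K, hK, hB, hM.trans ?_⟩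
  have h3 : (2 ^ (d + 2)) ^ d * r ^ σ ≤ (r / (2 ^ d + 1)) ^ (σ + ε) := by
    rw [Real.div_rpow (by linarith) h0.le, le_div_iff₀ (by positivity),
      Real.rpow_add (show 0 < r by linarith) σ ε]
    calc _ = r ^ σ * ((2 ^ (d + 2)) ^ d * ((2 : ℝ) ^ d + 1) ^ (σ + ε)) := by ring
      _ ≤ _ := mul_le_mul_of_nonneg_left hr2 (by positivity)
  refine (pow_le_pow_left₀ (by positivity) h3 _).trans ?_
  rw [← Real.rpow_natCast, ← Real.rpow_mul (by positivity), mul_comm (σ + ε),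
    Real.rpow_mul (by positivity), Real.rpow_natCast,
    ← Real.mul_rpow (by positivity) (by positivity)]
  refine Real.rpow_le_rpow (by positivity) ?_ (by linarith)
  rw [pow_succ', mul_assoc]
  exact mul_le_mul_of_nonneg_left h1 (by positivity)

end Pool.Agent.MP_a2955b_co.Orth
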